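import Pool.Agent.H872R2.Drastic.Torus

/-!
The covering of a subset of the three-torus attached to a factor of automorphy.
-/

set_option autoImplicit false

namespace Pool.Agent.H872R2.Drastic

open Set Topology unitInterval

/-- A factor of automorphy `e` on `Fin 3 → ℝ` which is the coboundary of `f` over a subset `X` of the
torus. -/
structure Setup (X : Set T3) where
  f : E3 → UnitAddCircle
  f_cont : ContinuousOn f (pr ⁻¹' X)
  e : (Fin 3 → ℤ) → E3 → UnitAddCircle
  e_cont : ∀ v, Continuous (e v)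
  coc : ∀ v v' x, e (v + v') x = e v (x + iv v') + e v' x
  e_eq : ∀ v, ∀ x, pr x ∈ X → e v x = f (x + iv v) - f x

namespace Setup

variable {X : Set T3} (D : Setup X)

lemma e_zero (x : E3) : D.e 0 x = 0 := by
  have := D.coc 0 0 x
  simpa using this

/-- The group of automorphisms of the universal cover of the circle bundle. -/
@[ext] structure Aut where
  v : Fin 3 → ℤ
  θ : C(E3, ℝ)
  coe : ∀ x, ((θ x : ℝ) : UnitAddCircle) = D.e v x

variable {D}

/-- Composition. -/
def Aut.mul (a b : D.Aut) : D.Aut where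
  v := a.v + b.v
  θ := ⟨fun x ↦ b.θ x + a.θ (x + iv b.v), by fun_prop⟩
  coe x := by
    simp only [ContinuousMap.coe_mk, AddCircle.coe_add, a.coe, b.coe, D.coc]
    abel

/-- Inverse. -/
def Aut.inv (a : D.Aut) : D.Aut where
  v := -a.v
  θ := ⟨fun x ↦ -a.θ (x + iv (-a.v)), by fun_prop⟩
  coe x := by
    simp only [ContinuousMap.coe_mk, AddCircle.coe_neg, a.coe]
    have h1 := D.coc a.v (-a.v) x
    rw [add_neg_cancel, e_zero] at h1
    exact (eq_neg_of_add_eq_zero_right h1.symm).symm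

instance : Mul D.Aut := ⟨Aut.mul⟩
instance : One D.Aut := ⟨⟨0, 0, fun x ↦ by simp [e_zero]⟩⟩
instance : Inv D.Aut := ⟨Aut.inv⟩

@[simp] lemma mul_v (a b : D.Aut) : (a * b).v = a.v + b.v := rfl
@[simp] lemma mul_θ (a b : D.Aut) (x : E3) : (a * b).θ x = b.θ x + a.θ (x + iv b.v) := rfl
@[simp] lemma one_v : (1 : D.Aut).v = 0 := rfl
@[simp] lemma one_θ (x : E3) : (1 : D.Aut).θ x = 0 := rfl
@[simp] lemma inv_v (a : D.Aut) : (a⁻¹).v = -a.v := rfl
@[simp] lemma inv_θ (a : D.Aut) (x : E3) : (a⁻¹).θ x = -a.θ (x + iv (-a.v)) := rfl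

lemma Aut.ext' {a b : D.Aut} (h1 : a.v = b.v) (h2 : ∀ x, a.θ x = b.θ x) : a = b :=
  Aut.ext h1 (ContinuousMap.ext h2)

instance : Group D.Aut := Group.ofLeftAxioms
  (fun a b c ↦ Aut.ext' (by simp [add_assoc]) (fun x ↦ by
    simp only [mul_θ, mul_v, map_add]
    rw [show x + (iv b.v + iv c.v) = x + iv c.v + iv b.v by abel]
    ring))
  (fun a ↦ Aut.ext' (by simp) (fun x ↦ by simp))
  (fun a ↦ Aut.ext' (by simp) (fun x ↦ by
    simp only [mul_θ, inv_θ, one_θ, map_neg]
    rw [show x + iv a.v + -iv a.v = x by abel]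
    ring))

variable (D)

/-- The lattice component. -/
def Aut.vHom : D.Aut →* Multiplicative (Fin 3 → ℤ) where
  toFun a := Multiplicative.ofAdd a.v
  map_one' := rfl
  map_mul' _ _ := rfl

/-- The total space of the covering of `X`. -/
def Y : Type := {p : E3 × ℝ // pr p.1 ∈ X ∧ ((p.2 : ℝ) : UnitAddCircle) = D.f p.1}

instance : TopologicalSpace D.Y := instTopologicalSpaceSubtype

/-- The covering projection. -/
def proj (y : D.Y) : X := ⟨pr y.1.1, y.2.1⟩

instance : SMul D.Aut D.Y where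
  smul a y := ⟨(y.1.1 + iv a.v, y.1.2 + a.θ y.1.1), by
    refine ⟨by simpa using y.2.1, ?_⟩
    simp only [AddCircle.coe_add, a.coe, y.2.2, D.e_eq a.v y.1.1 y.2.1]
    abel⟩

lemma smul_val (a : D.Aut) (y : D.Y) : (a • y).1 = (y.1.1 + iv a.v, y.1.2 + a.θ y.1.1) := rfl

instance : MulAction D.Aut D.Y where
  one_smul y := by
    apply Subtype.ext
    rw [smul_val]
    simp
  mul_smul a b y := by
    apply Subtype.ext
    simp only [smul_val, mul_v, mul_θ, map_add]
    ext1
    · simp only; abel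
    · simp only; ring

lemma continuous_proj : Continuous D.proj :=
  (continuous_pr.comp (continuous_fst.comp continuous_subtype_val)).subtype_mk _

/-- The intermediate projection. -/
def q (y : D.Y) : pr ⁻¹' X := ⟨y.1.1, y.2.1⟩

lemma isOpenMap_q : IsOpenMap D.q := by
  rw [isOpenMap_iff_nhds_le]
  intro y W hW
  rw [Filter.mem_map] at hW
  obtain ⟨W', hW', hsub⟩ := (mem_nhds_induced (Subtype.val : D.Y → E3 × ℝ) y (D.q ⁻¹' W)).1 hW
  obtain ⟨U, hU, V, hV, hUV⟩ := mem_nhds_prod_iff.1 hW'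
  have hV' : ((↑) : ℝ → UnitAddCircle) '' V ∈ 𝓝 (D.f y.1.1) := by
    rw [← y.2.2]
    exact unitAddCircle_cov.isOpenMap.image_mem_nhds hV
  have h1 : D.f ⁻¹' (((↑) : ℝ → UnitAddCircle) '' V) ∈ 𝓝[pr ⁻¹' X] y.1.1 :=
    D.f_cont y.1.1 y.2.1 hV'
  have h2 : U ∈ 𝓝[pr ⁻¹' X] y.1.1 := mem_nhdsWithin_of_mem_nhds hU
  have h3 := Filter.inter_mem h2 h1
  rw [← preimage_coe_mem_nhds_subtype (a := (⟨y.1.1, y.2.1⟩ : ↥(pr ⁻¹' X)))] at h3
  refine Filter.mem_of_superset h3 ?_
  rintro ⟨x, hx⟩ ⟨hxU, r, hrV, hr⟩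
  have : (⟨(x, r), hx, hr⟩ : D.Y) ∈ D.q ⁻¹' W := hsub (hUV ⟨hxU, hrV⟩)
  exact this

lemma isOpenMap_proj : IsOpenMap D.proj :=
  (isOpenQuotientMap_pr.isOpenMap.restrictPreimage X).comp D.isOpenMap_q

lemma proj_surjective : Function.Surjective D.proj := by
  rintro ⟨x, hx⟩
  obtain ⟨y, rfl⟩ := pr_surjective x
  obtain ⟨r, hr⟩ := unitAddCircle_surj (D.f y)
  exact ⟨⟨(y, r), hx, hr⟩, rfl⟩

/-- Lifting a factor of automorphy with a prescribed value. -/
lemma exists_aut (v : Fin 3 → ℤ) (x : E3) (r : ℝ) (hr : (r : UnitAddCircle) = D.e v x) :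
    ∃ a : D.Aut, a.v = v ∧ a.θ x = r := by
  obtain ⟨F, hF⟩ := exists_lift_contractible unitAddCircle_cov unitAddCircle_surj
    (⟨D.e v, D.e_cont v⟩ : C(E3, UnitAddCircle))
  simp only [ContinuousMap.coe_mk] at hF
  obtain ⟨n, hn⟩ := coe_eq_zero (r := r - F x) (by rw [AddCircle.coe_sub, hr, hF, sub_self])
  refine ⟨⟨v, F + ContinuousMap.const E3 (n : ℝ), fun y ↦ ?_⟩, rfl, ?_⟩
  · simp [hF]
  · simp only [ContinuousMap.add_apply, ContinuousMap.const_apply]
    linarith

lemma isQuotientCoveringMap : IsQuotientCoveringMap D.proj D.Aut where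
  toIsQuotientMap := D.isOpenMap_proj.isQuotientMap D.continuous_proj D.proj_surjective
  continuous_const_smul a := by
    refine Continuous.subtype_mk ?_ _
    fun_prop
  apply_eq_iff_mem_orbit := by
    intro y₁ y₂
    constructor
    · intro h
      have h' : pr y₁.1.1 = pr y₂.1.1 := congr_arg Subtype.val h
      obtain ⟨v, hv⟩ := exists_of_pr_eq h'
      obtain ⟨a, hav, haθ⟩ := D.exists_aut v y₂.1.1 (y₁.1.2 - y₂.1.2) (by
        rw [AddCircle.coe_sub, y₁.2.2, y₂.2.2, D.e_eq v _ y₂.2.1, hv])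
      refine ⟨a, Subtype.ext ?_⟩
      simp only [smul_val, hav, haθ, ← hv]
      ext1
      · rfl
      · simp
    · rintro ⟨a, rfl⟩
      apply Subtype.ext
      simp [proj, smul_val]
  disjoint y := by
    refine ⟨{z | dist z.1.1 y.1.1 < 1 / 2 ∧ dist z.1.2 y.1.2 < 1 / 2}, ?_, ?_⟩
    · refine (IsOpen.mem_nhds ?_ (by simp))
      refine IsOpen.and (isOpen_lt ?_ continuous_const) (isOpen_lt ?_ continuous_const)
      · exact (continuous_fst.comp continuous_subtype_val).dist continuous_const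
      · exact (continuous_snd.comp continuous_subtype_val).dist continuous_const
    · rintro a ⟨_, ⟨z, hz, rfl⟩, hz'⟩
      simp only [mem_ofPred_eq, smul_val] at hz hz'
      have h1 : ‖iv a.v‖ < 1 := by
        have : dist (z.1.1 + iv a.v) z.1.1 < 1 := by
          calc _ ≤ dist (z.1.1 + iv a.v) y.1.1 + dist y.1.1 z.1.1 := dist_triangle _ _ _
            _ < 1 := by rw [dist_comm y.1.1]; linarith [hz.1, hz'.1]
        rwa [dist_self_add_left] at this
      have hv : a.v = 0 := norm_iv_lt_one h1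
      have h2 : |a.θ z.1.1| < 1 := by
        have : dist (z.1.2 + a.θ z.1.1) z.1.2 < 1 := by
          calc _ ≤ dist (z.1.2 + a.θ z.1.1) y.1.2 + dist y.1.2 z.1.2 := dist_triangle _ _ _
            _ < 1 := by rw [dist_comm y.1.2]; linarith [hz.2, hz'.2]
        rwa [dist_self_add_left, Real.norm_eq_abs] at this
      have hcoe : ∀ x, ((a.θ x : ℝ) : UnitAddCircle) = 0 := fun x ↦ by rw [a.coe, hv, e_zero]
      obtain ⟨n, hn⟩ := coe_eq_zero (hcoe z.1.1)
      have hn0 : n = 0 := by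
        rw [hn] at h2
        have : |n| < 1 := by exact_mod_cast h2
        simpa using Int.abs_lt_one_iff.1 this
      refine Aut.ext' hv (fun x ↦ ?_)
      rw [one_θ, const_of_coe_eq_zero isPreconnected_univ a.θ.continuous.continuousOn
        (fun x _ ↦ hcoe x) (mem_univ x) (mem_univ z.1.1), hn, hn0]
      simp

end Setup

end Pool.Agent.H872R2.Drastic
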