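import Mathlib

/-!
# Tame knots and drastic surgery

`UnitAddCircle = ℝ / ℤ` is the circle, `Disc` the closed unit disc of `ℂ`.  A tame knot in a space `M`
is given together with a parametrised closed tubular neighbourhood: a topological embedding of the
solid torus `S¹ × D²` whose open part `S¹ × int D²` has open image (the latter is automatic in a
3-manifold, by invariance of domain).  The knot itself is the image of `S¹ × {0}`.
-/

set_option autoImplicit false

namespace Pool.Agent.H872R2.Drastic

open Metric Topology

/-- The closed unit disc. -/
abbrev Disc : Type := closedBall (0 : ℂ) 1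

/-- The boundary circle of the disc, parametrised by `ℝ / ℤ`: `t ↦ exp (2 π i t)`. -/
noncomputable def circ (t : UnitAddCircle) : Disc :=
  ⟨(AddCircle.toCircle t : ℂ), by rw [mem_closedBall_zero_iff, Circle.norm_coe]⟩

/-- A tame knot in `M` with a parametrised closed tubular neighbourhood. -/
structure TameKnot (M : Type*) [TopologicalSpace M] where
  /-- the embedding of the solid torus -/
  tube : UnitAddCircle × Disc → M
  isEmbedding : IsEmbedding tube
  isOpen_image : IsOpen (tube '' {p | ‖(p.2 : ℂ)‖ < 1})

namespace TameKnot

variable {M : Type*} [TopologicalSpace M] (K : TameKnot M)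

/-- The knot itself, as a parametrised curve: the core of the solid torus. -/
def core : C(UnitAddCircle, M) where
  toFun s := K.tube (s, ⟨0, by simp⟩)
  continuous_toFun := K.isEmbedding.continuous.comp (by fun_prop)

/-- The open regular neighbourhood `n(K)` of the knot. -/
def nbhd : Set M := K.tube '' {p | ‖(p.2 : ℂ)‖ < 1}

/-- The exterior `M - n(K)`. -/
def exterior : Set M := K.nbhdᶜ

lemma tube_circ_mem (s t : UnitAddCircle) : K.tube (s, circ t) ∈ K.exterior := by
  rintro ⟨⟨s', d⟩, hd, h⟩
  have := K.isEmbedding.injective h
  simp only [Prod.mk.injEq] at this
  rw [this.2] at hd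
  simp only [Set.mem_ofPred_eq, circ, Circle.norm_coe, lt_irrefl] at hd

lemma continuous_circ : Continuous circ := by
  unfold circ
  exact (continuous_subtype_val.comp AddCircle.continuous_toCircle).subtype_mk _

/-- The boundary torus `∂n(K)`, parametrised by `S¹ × S¹`, as a map to the exterior.  The first
coordinate is the direction of the knot, the second one the direction of the meridian. -/
noncomputable def boundary : C(UnitAddCircle × UnitAddCircle, K.exterior) where
  toFun p := ⟨K.tube (p.1, circ p.2), K.tube_circ_mem _ _⟩
  continuous_toFun := (K.isEmbedding.continuous.comp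
    (continuous_fst.prodMk (continuous_circ.comp continuous_snd))).subtype_mk _

/-- The fundamental group of the exterior, based at a point of the boundary torus. -/
abbrev group : Type _ := FundamentalGroup K.exterior (K.boundary (0, 0))

/-- The image of `π₁(∂n(K))` in `π₁(M - n(K))`. -/
noncomputable def peripheral : Subgroup K.group := (FundamentalGroup.map K.boundary (0, 0)).range

/-- The closed curve `t ↦ (q t, p t)` on the torus. -/
def curve (p q : ℤ) : Path ((0, 0) : UnitAddCircle × UnitAddCircle) (0, 0) where
  toFun t := (((q * t : ℝ) : UnitAddCircle), ((p * t : ℝ) : UnitAddCircle))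
  continuous_toFun := by
    refine Continuous.prodMk ?_ ?_
    · exact (AddCircle.continuous_mk' (1 : ℝ)).comp (by fun_prop)
    · exact (AddCircle.continuous_mk' (1 : ℝ)).comp (by fun_prop)
  source' := by simp
  target' := by
    have h (n : ℤ) : ((n : ℝ) : UnitAddCircle) = 0 := by
      rw [AddCircle.coe_eq_zero_iff]; exact ⟨n, by simp⟩
    simp [h]

/-- The class in `π₁(M - n(K))` of the curve on `∂n(K)` winding `q` times in the direction of the
knot and `p` times in the direction of the meridian.  When `p` and `q` are coprime this is a simple
closed curve, and every essential simple closed curve is isotopic to one of these. -/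
noncomputable def slope (p q : ℤ) : K.group :=
  FundamentalGroup.map K.boundary (0, 0)
    (FundamentalGroup.fromPath (Path.Homotopic.Quotient.mk (curve p q)))

/-- The knot admits a drastic surgery: for some slope `γ` on `∂n(K)` the normal closure of `[γ]` in
`π₁(M - n(K))` meets the image of `π₁(∂n(K))` in a subgroup of finite index of that image. -/
def AdmitsDrasticSurgery : Prop :=
  ∃ p q : ℤ, IsCoprime p q ∧
    ((Subgroup.normalClosure {K.slope p q}).subgroupOf K.peripheral).FiniteIndex

end TameKnot

end Pool.Agent.H872R2.Drastic
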