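import Mathlib

/-!
Circle valued Mayer-Vietoris on `Fin n → ℝ`: if `A ∪ B` is everything, `A`, `B` closed and `s` is a
continuous map from `A ∩ B` to `ℝ / ℤ`, then `s = f - g` on `A ∩ B` with `f` continuous on `A` and `g`
continuous on `B`.
-/

set_option autoImplicit false

namespace Pool.Agent.H872R2.Drastic

open Set Topology unitInterval

/-- Maps from contractible spaces lift through surjective covering maps. -/
lemma exists_lift_contractible {E X A : Type*} [TopologicalSpace E] [TopologicalSpace X]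
    [TopologicalSpace A] {p : E → X} (cov : IsCoveringMap p) (hp : Function.Surjective p)
    [ContractibleSpace A] (f : C(A, X)) : ∃ F : C(A, E), ∀ a, p (F a) = f a := by
  obtain ⟨y, ⟨H⟩⟩ := id_nullhomotopic A
  obtain ⟨e, he⟩ := hp (f y)
  let H' : C(I × A, X) := f.comp H.symm.toContinuousMap
  have h0 : ∀ a, H' (0, a) = p (ContinuousMap.const A e a) := by
    intro a
    simp [H', he]
  refine ⟨(cov.liftHomotopy H' (ContinuousMap.const A e) h0).comp
    ((ContinuousMap.const A 1).prodMk (ContinuousMap.id A)), fun a ↦ ?_⟩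
  have := congr_fun (cov.liftHomotopy_lifts H' (ContinuousMap.const A e) h0) (1, a)
  simpa [H'] using this

lemma unitAddCircle_cov : IsCoveringMap ((↑) : ℝ → UnitAddCircle) := AddCircle.isCoveringMap_coe 1

lemma unitAddCircle_surj : Function.Surjective ((↑) : ℝ → UnitAddCircle) :=
  QuotientAddGroup.mk_surjective

/-- Circle valued maps on contractible subsets lift to `ℝ`. -/
lemma exists_lift_on {X : Type*} [TopologicalSpace X] {C : Set X} [ContractibleSpace C]
    {h : X → UnitAddCircle} (hh : ContinuousOn h C) :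
    ∃ θ : C(C, ℝ), ∀ x : C, ((θ x : ℝ) : UnitAddCircle) = h x := by
  obtain ⟨F, hF⟩ := exists_lift_contractible unitAddCircle_cov unitAddCircle_surj
    (⟨C.domRestrict h, hh.domRestrict⟩ : C(C, UnitAddCircle))
  exact ⟨F, fun x ↦ hF x⟩

/-- Circle valued maps on closed contractible subsets lift to `ℝ`, and the lift extends. -/
lemma exists_lift_on_closed {X : Type*} [TopologicalSpace X] [NormalSpace X] {C : Set X}
    [ContractibleSpace C] (hC : IsClosed C) {h : X → UnitAddCircle} (hh : ContinuousOn h C) :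
    ∃ θ : C(X, ℝ), ∀ x ∈ C, ((θ x : ℝ) : UnitAddCircle) = h x := by
  obtain ⟨F, hF⟩ := exists_lift_on hh
  obtain ⟨G, hG⟩ := ContinuousMap.exists_restrict_eq hC F
  refine ⟨G, fun x hx ↦ ?_⟩
  rw [← hF ⟨x, hx⟩, ← hG]
  rfl

/-- `Good A B s W`: on `W` the function `s` on `A ∩ B` is a difference. -/
def Good {X : Type*} [TopologicalSpace X] (A B : Set X) (s : X → UnitAddCircle) (W : Set X) : Prop :=
  ∃ f g : X → UnitAddCircle, ContinuousOn f (A ∩ W) ∧ ContinuousOn g (B ∩ W) ∧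
    ∀ x ∈ A ∩ B ∩ W, s x = f x - g x

section
variable {X : Type*} [TopologicalSpace X] {A B : Set X} {s : X → UnitAddCircle}

lemma Good.mono {W W' : Set X} (h : Good A B s W) (hW : W' ⊆ W) : Good A B s W' := by
  obtain ⟨f, g, hf, hg, hfg⟩ := h
  exact ⟨f, g, hf.mono (inter_subset_inter_right _ hW), hg.mono (inter_subset_inter_right _ hW),
    fun x hx ↦ hfg x ⟨hx.1, hW hx.2⟩⟩

/-- Matching: two local solutions differ by a circle valued function on the intersection. -/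
lemma exists_glue {W : Set X} (hA : IsClosed A) (hB : IsClosed B) (hW : IsClosed W)
    (hAB : A ∪ B = univ) {f₁ g₁ f₂ g₂ : X → UnitAddCircle}
    (hf₁ : ContinuousOn f₁ (A ∩ W)) (hg₁ : ContinuousOn g₁ (B ∩ W))
    (hf₂ : ContinuousOn f₂ (A ∩ W)) (hg₂ : ContinuousOn g₂ (B ∩ W))
    (h : ∀ x ∈ A ∩ B ∩ W, f₁ x - g₁ x = f₂ x - g₂ x) :
    ∃ h : X → UnitAddCircle, ContinuousOn h W ∧ (∀ x ∈ A ∩ W, h x = f₁ x - f₂ x) ∧
      (∀ x ∈ B ∩ W, h x = g₁ x - g₂ x) := by
  classical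
  let k : X → UnitAddCircle := fun x ↦ if x ∈ A then f₁ x - f₂ x else g₁ x - g₂ x
  have hkA : ∀ x ∈ A ∩ W, k x = f₁ x - f₂ x := fun x hx ↦ by simp [k, hx.1]
  have hkB : ∀ x ∈ B ∩ W, k x = g₁ x - g₂ x := by
    intro x hx
    by_cases hxA : x ∈ A
    · have := h x ⟨⟨hxA, hx.1⟩, hx.2⟩
      simp only [k, hxA, if_true]
      rw [sub_eq_sub_iff_add_eq_add] at this ⊢
      rw [this]; abel
    · simp [k, hxA]
  refine ⟨k, ?_, hkA, hkB⟩
  have h1 : ContinuousOn k (A ∩ W) := (hf₁.sub hf₂).congr hkA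
  have h2 : ContinuousOn k (B ∩ W) := (hg₁.sub hg₂).congr hkB
  have := h1.union_of_isClosed h2 (hA.inter hW) (hB.inter hW)
  rwa [← union_inter_distrib_right, hAB, univ_inter] at this

/-- Gluing good sets along a contractible intersection. -/
lemma Good.union [NormalSpace X] {W₁ W₂ : Set X} (hA : IsClosed A) (hB : IsClosed B)
    (hAB : A ∪ B = univ) (hW₁ : IsClosed W₁) (hW₂ : IsClosed W₂) [ContractibleSpace ↑(W₁ ∩ W₂)]
    (h₁ : Good A B s W₁) (h₂ : Good A B s W₂) : Good A B s (W₁ ∪ W₂) := by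
  classical
  obtain ⟨f₁, g₁, hf₁, hg₁, h₁⟩ := h₁
  obtain ⟨f₂, g₂, hf₂, hg₂, h₂⟩ := h₂
  obtain ⟨k, hk, hkA, hkB⟩ := exists_glue (W := W₁ ∩ W₂) hA hB (hW₁.inter hW₂) hAB
    (hf₁.mono (by gcongr; exact inter_subset_left)) (hg₁.mono (by gcongr; exact inter_subset_left))
    (hf₂.mono (by gcongr; exact inter_subset_right))
    (hg₂.mono (by gcongr; exact inter_subset_right))
    (fun x hx ↦ by rw [← h₁ x ⟨hx.1, hx.2.1⟩, ← h₂ x ⟨hx.1, hx.2.2⟩])
  obtain ⟨θ, hθ⟩ := exists_lift_on_closed (hW₁.inter hW₂) hk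
  have hθc : Continuous fun x ↦ ((θ x : ℝ) : UnitAddCircle) :=
    (AddCircle.continuous_mk' (1 : ℝ)).comp θ.continuous
  let f : X → UnitAddCircle := fun x ↦ if x ∈ W₁ then f₁ x else f₂ x + ((θ x : ℝ) : UnitAddCircle)
  let g : X → UnitAddCircle := fun x ↦ if x ∈ W₁ then g₁ x else g₂ x + ((θ x : ℝ) : UnitAddCircle)
  have f1 : ∀ x ∈ A ∩ W₁, f x = f₁ x := fun x hx ↦ by simp [f, hx.2]
  have g1 : ∀ x ∈ B ∩ W₁, g x = g₁ x := fun x hx ↦ by simp [g, hx.2]
  have f2 : ∀ x ∈ A ∩ W₂, f x = f₂ x + ((θ x : ℝ) : UnitAddCircle) := by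
    intro x hx
    by_cases h : x ∈ W₁
    · simp only [f, h, if_true]
      rw [hθ x ⟨h, hx.2⟩, hkA x ⟨hx.1, h, hx.2⟩]; abel
    · simp [f, h]
  have g2 : ∀ x ∈ B ∩ W₂, g x = g₂ x + ((θ x : ℝ) : UnitAddCircle) := by
    intro x hx
    by_cases h : x ∈ W₁
    · simp only [g, h, if_true]
      rw [hθ x ⟨h, hx.2⟩, hkB x ⟨hx.1, h, hx.2⟩]; abel
    · simp [g, h]
  refine ⟨f, g, ?_, ?_, ?_⟩
  · rw [inter_union_distrib_left]
    exact (hf₁.congr f1).union_of_isClosed ((hf₂.add hθc.continuousOn).congr f2)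
      (hA.inter hW₁) (hA.inter hW₂)
  · rw [inter_union_distrib_left]
    exact (hg₁.congr g1).union_of_isClosed ((hg₂.add hθc.continuousOn).congr g2)
      (hB.inter hW₁) (hB.inter hW₂)
  · rintro x ⟨⟨hxA, hxB⟩, hx | hx⟩
    · rw [f1 x ⟨hxA, hx⟩, g1 x ⟨hxB, hx⟩, h₁ x ⟨⟨hxA, hxB⟩, hx⟩]
    · rw [f2 x ⟨hxA, hx⟩, g2 x ⟨hxB, hx⟩, h₂ x ⟨⟨hxA, hxB⟩, hx⟩]; abel

lemma good_of_disjoint_left {W : Set X} (h : A ∩ W = ∅) : Good A B s W := by
  refine ⟨fun _ ↦ 0, fun _ ↦ 0, continuousOn_const, continuousOn_const, fun x hx ↦ ?_⟩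
  have : x ∈ A ∩ W := ⟨hx.1.1, hx.2⟩
  simp [h] at this

lemma good_of_disjoint_right {W : Set X} (h : B ∩ W = ∅) : Good A B s W := by
  refine ⟨fun _ ↦ 0, fun _ ↦ 0, continuousOn_const, continuousOn_const, fun x hx ↦ ?_⟩
  have : x ∈ B ∩ W := ⟨hx.1.2, hx.2⟩
  simp [h] at this

/-- Every point has a good neighbourhood. -/
lemma exists_good_nhds [NormalSpace X] [RegularSpace X] (hA : IsClosed A) (hB : IsClosed B)
    (hs : ContinuousOn s (A ∩ B)) (x : X) : ∃ U ∈ 𝓝 x, Good A B s U := by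
  by_cases hxA : x ∈ A
  swap
  · exact ⟨Aᶜ, hA.isOpen_compl.mem_nhds hxA, good_of_disjoint_left (by simp)⟩
  by_cases hxB : x ∈ B
  swap
  · exact ⟨Bᶜ, hB.isOpen_compl.mem_nhds hxB, good_of_disjoint_right (by simp)⟩
  obtain ⟨r, hr⟩ := unitAddCircle_surj (s x)
  obtain ⟨e, he, hec⟩ := unitAddCircle_cov.isLocalHomeomorph r
  have hmem : s x ∈ e.target := by
    rw [← hr, hec]; exact e.map_source he
  have hnh : s ⁻¹' e.target ∈ 𝓝[A ∩ B] x :=
    (hs x ⟨hxA, hxB⟩) (e.open_target.mem_nhds hmem)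
  rw [mem_nhdsWithin_iff_exists_mem_nhds_inter] at hnh
  obtain ⟨U, hU, hUs⟩ := hnh
  obtain ⟨C, hC, hCcl, hCU⟩ := exists_mem_nhds_isClosed_subset hU
  have hD : IsClosed (A ∩ B ∩ C) := (hA.inter hB).inter hCcl
  have hmaps : MapsTo s (A ∩ B ∩ C) e.target := fun y hy ↦ hUs ⟨hCU hy.2, hy.1⟩
  have hcont : ContinuousOn (fun y ↦ e.symm (s y)) (A ∩ B ∩ C) :=
    e.continuousOn_symm.comp (hs.mono inter_subset_left) hmaps
  obtain ⟨G, hG⟩ := ContinuousMap.exists_restrict_eq hD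
    (⟨_, hcont.domRestrict⟩ : C(↑(A ∩ B ∩ C), ℝ))
  refine ⟨C, hC, fun y ↦ ((G y : ℝ) : UnitAddCircle), fun _ ↦ 0,
    ((AddCircle.continuous_mk' (1 : ℝ)).comp G.continuous).continuousOn, continuousOn_const, ?_⟩
  intro y hy
  have h1 : G y = e.symm (s y) := congr_arg (fun (F : C(↑(A ∩ B ∩ C), ℝ)) ↦ F ⟨y, hy⟩) hG
  have h2 := e.right_inv (hmaps hy)
  rw [← hec, ← h1] at h2
  simp only [sub_zero]
  exact h2.symm

end

section boxes

variable {ι : Type*} [Fintype ι] {A B : Set (ι → ℝ)} {s : (ι → ℝ) → UnitAddCircle}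

lemma good_box (hA : IsClosed A) (hB : IsClosed B) (hAB : A ∪ B = univ)
    (hs : ContinuousOn s (A ∩ B)) (a b : ι → ℝ) (hab : a ≤ b) : Good A B s (Icc a b) := by
  classical
  choose U hU hgood using exists_good_nhds hA hB hs
  obtain ⟨δ, hδ, hleb⟩ := lebesgue_number_lemma_of_metric (s := Icc a b) isCompact_Icc
    (c := fun x ↦ interior (U x)) (fun _ ↦ isOpen_interior)
    (fun x _ ↦ mem_iUnion.2 ⟨x, mem_interior_iff_mem_nhds.2 (hU x)⟩)
  have key : ∀ n : ℕ, ∀ a' b' : ι → ℝ, a' ≤ b' → Icc a' b' ⊆ Icc a b →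
      ∑ i, (b' i - a' i) ≤ n * (δ / 2) → Good A B s (Icc a' b') := by
    intro n
    induction n with
    | zero =>
      intro a' b' hab' hsub hsum
      obtain ⟨x, hx⟩ := hleb a' (hsub ⟨le_rfl, hab'⟩)
      refine (hgood x).mono (fun y hy ↦ interior_subset (hx ?_))
      rw [Metric.mem_ball, dist_pi_lt_iff hδ]
      intro i
      have h1 : b' i - a' i ≤ ∑ i, (b' i - a' i) :=
        Finset.single_le_sum (f := fun i ↦ b' i - a' i) (fun j _ ↦ sub_nonneg.2 (hab' j))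
          (Finset.mem_univ i)
      have h2 := hy.1 i
      have h3 := hy.2 i
      rw [Real.dist_eq, abs_lt]
      simp only [Nat.cast_zero, zero_mul] at hsum
      constructor <;> linarith
    | succ n ih =>
      intro a' b' hab' hsub hsum
      by_cases hsmall : ∀ i, b' i - a' i < δ
      · obtain ⟨x, hx⟩ := hleb a' (hsub ⟨le_rfl, hab'⟩)
        refine (hgood x).mono (fun y hy ↦ interior_subset (hx ?_))
        rw [Metric.mem_ball, dist_pi_lt_iff hδ]
        intro i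
        have h2 := hy.1 i
        have h3 := hy.2 i
        have h4 := hsmall i
        rw [Real.dist_eq, abs_lt]
        constructor <;> linarith
      · push Not at hsmall
        obtain ⟨i, hi⟩ := hsmall
        set c : ℝ := (a' i + b' i) / 2 with hc
        have hac : a' i ≤ c := by rw [hc]; linarith
        have hcb : c ≤ b' i := by rw [hc]; linarith
        set a'' := Function.update a' i c with ha''
        set b'' := Function.update b' i c with hb''
        have h1 : a' ≤ a'' := by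
          rw [ha'', le_update_iff]; exact ⟨hac, fun _ _ ↦ le_rfl⟩
        have h2 : b'' ≤ b' := by
          rw [hb'', update_le_iff]; exact ⟨hcb, fun _ _ ↦ le_rfl⟩
        have h3 : a'' ≤ b'' := by
          rw [ha'', update_le_iff]
          refine ⟨by simp [hb''], fun j hj ↦ ?_⟩
          simp only [hb'', Function.update_of_ne hj]
          exact hab' j
        have h4 : a' ≤ b'' := h1.trans h3
        have h5 : a'' ≤ b' := h3.trans h2
        have hunion : Icc a' b'' ∪ Icc a'' b' = Icc a' b' := by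
          apply subset_antisymm
          · exact union_subset (Icc_subset_Icc le_rfl h2) (Icc_subset_Icc h1 le_rfl)
          · intro y hy
            by_cases hyc : y i ≤ c
            · left
              refine ⟨hy.1, ?_⟩
              rw [hb'', le_update_iff]
              exact ⟨hyc, fun j _ ↦ hy.2 j⟩
            · right
              refine ⟨?_, hy.2⟩
              rw [ha'', update_le_iff]
              exact ⟨(not_le.1 hyc).le, fun j _ ↦ hy.1 j⟩
        have hinter : Icc a' b'' ∩ Icc a'' b' = Icc a'' b'' := by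
          rw [Icc_inter_Icc, sup_eq_right.2 h1, inf_eq_left.2 h2]
        have : ContractibleSpace ↑(Icc a' b'' ∩ Icc a'' b') := by
          rw [hinter]
          exact (convex_Icc a'' b'').contractibleSpace ⟨a'', left_mem_Icc.2 h3⟩
        have hs1 : ∑ j, (b'' j - a' j) ≤ n * (δ / 2) := by
          have : ∑ j, (b'' j - a' j) = ∑ j, (b' j - a' j) - (b' i - c) := by
            rw [eq_sub_iff_add_eq, ← Finset.add_sum_erase _ _ (Finset.mem_univ i),
              ← Finset.add_sum_erase (a := i) _ (fun j ↦ b' j - a' j) (Finset.mem_univ i)]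
            have : ∑ x ∈ Finset.univ.erase i, (b'' x - a' x) =
                ∑ x ∈ Finset.univ.erase i, (b' x - a' x) := by
              refine Finset.sum_congr rfl fun j hj ↦ ?_
              rw [hb'', Function.update_of_ne (Finset.ne_of_mem_erase hj)]
            rw [this]
            simp only [hb'', Function.update_self]
            ring
          rw [this]
          push_cast at hsum
          rw [hc]
          linarith
        have hs2 : ∑ j, (b' j - a'' j) ≤ n * (δ / 2) := by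
          have : ∑ j, (b' j - a'' j) = ∑ j, (b' j - a' j) - (c - a' i) := by
            rw [eq_sub_iff_add_eq, ← Finset.add_sum_erase _ _ (Finset.mem_univ i),
              ← Finset.add_sum_erase (a := i) _ (fun j ↦ b' j - a' j) (Finset.mem_univ i)]
            have : ∑ x ∈ Finset.univ.erase i, (b' x - a'' x) =
                ∑ x ∈ Finset.univ.erase i, (b' x - a' x) := by
              refine Finset.sum_congr rfl fun j hj ↦ ?_
              rw [ha'', Function.update_of_ne (Finset.ne_of_mem_erase hj)]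
            rw [this]
            simp only [ha'', Function.update_self]
            ring
          rw [this]
          push_cast at hsum
          rw [hc]
          linarith
        rw [← hunion]
        exact Good.union hA hB hAB isClosed_Icc isClosed_Icc
          (ih a' b'' h4 ((Icc_subset_Icc le_rfl h2).trans hsub) hs1)
          (ih a'' b' h5 ((Icc_subset_Icc h1 le_rfl).trans hsub) hs2)
  obtain ⟨n, hn⟩ := exists_nat_ge ((∑ i, (b i - a i)) / (δ / 2))
  refine key n a b hab subset_rfl ?_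
  rwa [div_le_iff₀ (by positivity)] at hn

/-- The exhausting boxes. -/
def Q (ι : Type*) (n : ℕ) : Set (ι → ℝ) := Icc (fun _ ↦ -(n : ℝ)) (fun _ ↦ (n : ℝ))

omit [Fintype ι] in
lemma Q_mono {m n : ℕ} (h : m ≤ n) : Q ι m ⊆ Q ι n := by
  have : (m : ℝ) ≤ n := by exact_mod_cast h
  exact Icc_subset_Icc (fun _ ↦ neg_le_neg this) (fun _ ↦ this)

lemma mem_Q_iff {n : ℕ} {x : ι → ℝ} : x ∈ Q ι n ↔ ‖x‖ ≤ n := by
  rw [pi_norm_le_iff_of_nonneg (Nat.cast_nonneg n)]
  simp only [Q, mem_Icc, Pi.le_def, Real.norm_eq_abs, abs_le]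
  exact forall_and.symm

omit [Fintype ι] in
lemma isClosed_Q (n : ℕ) : IsClosed (Q ι n) := isClosed_Icc

lemma good_Q (hA : IsClosed A) (hB : IsClosed B) (hAB : A ∪ B = univ)
    (hs : ContinuousOn s (A ∩ B)) (n : ℕ) : Good A B s (Q ι n) :=
  good_box hA hB hAB hs _ _ (fun _ ↦ by simp)

instance (n : ℕ) : ContractibleSpace (Q ι n) :=
  (convex_Icc _ _).contractibleSpace ⟨0, by simp [Pi.le_def]⟩

/-- Solutions over the `n`-th box. -/
def Sol (A B : Set (ι → ℝ)) (s : (ι → ℝ) → UnitAddCircle) (n : ℕ)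
    (p : ((ι → ℝ) → UnitAddCircle) × ((ι → ℝ) → UnitAddCircle)) : Prop :=
  ContinuousOn p.1 (A ∩ Q ι n) ∧ ContinuousOn p.2 (B ∩ Q ι n) ∧
    ∀ x ∈ A ∩ B ∩ Q ι n, s x = p.1 x - p.2 x

lemma Sol.step (hA : IsClosed A) (hB : IsClosed B) (hAB : A ∪ B = univ)
    (hs : ContinuousOn s (A ∩ B)) {n : ℕ} {p : ((ι → ℝ) → UnitAddCircle) × ((ι → ℝ) → UnitAddCircle)}
    (hp : Sol A B s n p) : ∃ p', Sol A B s (n + 1) p' ∧ (∀ x ∈ A ∩ Q ι n, p'.1 x = p.1 x) ∧
      (∀ x ∈ B ∩ Q ι n, p'.2 x = p.2 x) := by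
  obtain ⟨f, g, hf, hg, hfg⟩ := good_Q hA hB hAB hs (n + 1)
  obtain ⟨hf₁, hg₁, h₁⟩ := hp
  have hsub : Q ι n ⊆ Q ι (n + 1) := Q_mono n.le_succ
  obtain ⟨k, hk, hkA, hkB⟩ := exists_glue (W := Q ι n) hA hB (isClosed_Q n) hAB hf₁ hg₁
    (hf.mono (by gcongr)) (hg.mono (by gcongr))
    (fun x hx ↦ by rw [← h₁ x hx, ← hfg x ⟨hx.1, hsub hx.2⟩])
  obtain ⟨θ, hθ⟩ := exists_lift_on_closed (isClosed_Q n) hk
  have hθc : Continuous fun x ↦ ((θ x : ℝ) : UnitAddCircle) :=
    (AddCircle.continuous_mk' (1 : ℝ)).comp θ.continuous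
  refine ⟨(fun x ↦ f x + ((θ x : ℝ) : UnitAddCircle), fun x ↦ g x + ((θ x : ℝ) : UnitAddCircle)),
    ⟨hf.add hθc.continuousOn, hg.add hθc.continuousOn, fun x hx ↦ ?_⟩, fun x hx ↦ ?_,
    fun x hx ↦ ?_⟩
  · simp only [hfg x hx]; abel
  · simp only [hθ x hx.2, hkA x hx]; abel
  · simp only [hθ x hx.2, hkB x hx]; abel

/-- **Circle valued Mayer-Vietoris** for two closed sets covering `ι → ℝ`. -/
theorem exists_sub_eq (hA : IsClosed A) (hB : IsClosed B) (hAB : A ∪ B = univ)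
    (hs : ContinuousOn s (A ∩ B)) :
    ∃ f g : (ι → ℝ) → UnitAddCircle, ContinuousOn f A ∧ ContinuousOn g B ∧
      ∀ x ∈ A ∩ B, s x = f x - g x := by
  classical
  have h0 : ∃ p, Sol A B s 0 p := by
    obtain ⟨f, g, h⟩ := good_Q hA hB hAB hs 0
    exact ⟨(f, g), h⟩
  let P : (n : ℕ) → {p // Sol A B s n p} := fun n ↦ Nat.rec ⟨h0.choose, h0.choose_spec⟩
    (fun n p ↦ ⟨(Sol.step hA hB hAB hs p.2).choose, (Sol.step hA hB hAB hs p.2).choose_spec.1⟩) n
  have hstep : ∀ n, (∀ x ∈ A ∩ Q ι n, (P (n + 1)).1.1 x = (P n).1.1 x) ∧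
      (∀ x ∈ B ∩ Q ι n, (P (n + 1)).1.2 x = (P n).1.2 x) := fun n ↦
    (Sol.step hA hB hAB hs (P n).2).choose_spec.2
  have hle1 : ∀ m n, m ≤ n → ∀ x ∈ A ∩ Q ι m, (P n).1.1 x = (P m).1.1 x := by
    intro m n hmn
    induction n, hmn using Nat.le_induction with
    | base => intro x _; rfl
    | succ n hmn ih =>
      intro x hx
      rw [(hstep n).1 x ⟨hx.1, Q_mono hmn hx.2⟩, ih x hx]
  have hle2 : ∀ m n, m ≤ n → ∀ x ∈ B ∩ Q ι m, (P n).1.2 x = (P m).1.2 x := by
    intro m n hmn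
    induction n, hmn using Nat.le_induction with
    | base => intro x _; rfl
    | succ n hmn ih =>
      intro x hx
      rw [(hstep n).2 x ⟨hx.1, Q_mono hmn hx.2⟩, ih x hx]
  let N : (ι → ℝ) → ℕ := fun x ↦ ⌈‖x‖⌉₊
  have hN : ∀ x, x ∈ Q ι (N x) := fun x ↦ mem_Q_iff.2 (Nat.le_ceil _)
  have hN' : ∀ x n, x ∈ Q ι n → N x ≤ n := fun x n hx ↦ Nat.ceil_le.2 (mem_Q_iff.1 hx)
  let f : (ι → ℝ) → UnitAddCircle := fun x ↦ (P (N x)).1.1 x
  let g : (ι → ℝ) → UnitAddCircle := fun x ↦ (P (N x)).1.2 x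
  have hf : ∀ n, ∀ x ∈ A ∩ Q ι n, f x = (P n).1.1 x := fun n x hx ↦
    (hle1 (N x) n (hN' x n hx.2) x ⟨hx.1, hN x⟩).symm
  have hg : ∀ n, ∀ x ∈ B ∩ Q ι n, g x = (P n).1.2 x := fun n x hx ↦
    (hle2 (N x) n (hN' x n hx.2) x ⟨hx.1, hN x⟩).symm
  have hnh : ∀ x, Q ι (N x + 1) ∈ 𝓝 x := by
    intro x
    have : ∀ᶠ y in 𝓝 x, ‖y‖ < N x + 1 := by
      apply (continuous_norm.tendsto x).eventually_lt_const
      exact (mem_Q_iff.1 (hN x)).trans_lt (by linarith)
    filter_upwards [this] with y hy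
    rw [mem_Q_iff]
    push_cast
    exact hy.le
  refine ⟨f, g, fun x hx ↦ ?_, fun x hx ↦ ?_, fun x hx ↦ ?_⟩
  · have h1 : ContinuousWithinAt f (A ∩ Q ι (N x + 1)) x :=
      (((P (N x + 1)).2.1).congr (hf (N x + 1))) x ⟨hx, Q_mono (Nat.le_succ _) (hN x)⟩
    exact (continuousWithinAt_inter (hnh x)).1 h1
  · have h1 : ContinuousWithinAt g (B ∩ Q ι (N x + 1)) x :=
      (((P (N x + 1)).2.2.1).congr (hg (N x + 1))) x ⟨hx, Q_mono (Nat.le_succ _) (hN x)⟩
    exact (continuousWithinAt_inter (hnh x)).1 h1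
  · exact (P (N x)).2.2.2 x ⟨hx, hN x⟩

end boxes

end Pool.Agent.H872R2.Drastic
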