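import Pool.Agent.H872R2.Drastic.Cover
import Pool.Agent.H872R2.Drastic.Defs

/-!
Knots in the three-torus which admit a drastic surgery are null-homotopic.
-/

set_option autoImplicit false

namespace Pool.Agent.H872R2.Drastic

open Set Topology unitInterval

/-- A continuous function on an embedded compact space, seen as a function on the range. -/
lemma exists_ext_range {X Y Z : Type*} [TopologicalSpace X] [TopologicalSpace Y]
    [TopologicalSpace Z] [Nonempty X] {e : X → Y} (he : IsEmbedding e) (h : C(X, Z)) :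
    ∃ h' : Y → Z, ContinuousOn h' (range e) ∧ ∀ x, h' (e x) = h x := by
  have hl : Function.LeftInverse (Function.invFun e) e := Function.leftInverse_invFun he.injective
  refine ⟨fun y ↦ h (Function.invFun e y), ?_, fun x ↦ by simp only [hl x]⟩
  rw [continuousOn_iff_continuous_domRestrict]
  have : (range e).domRestrict (fun y ↦ h (Function.invFun e y)) = h ∘ he.toHomeomorph.symm := by
    ext ⟨_, x, rfl⟩
    simp only [Set.domRestrict_apply, Function.comp_apply, hl x]
    congr 1
    exact (he.toHomeomorph.symm_apply_eq.2 rfl).symm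
  rw [this]
  exact h.continuous.comp he.toHomeomorph.symm.continuous

namespace TameKnot

variable (K : TameKnot T3)

lemma exists_circ (d : Disc) (hd : 1 ≤ ‖(d : ℂ)‖) : ∃ t, d = circ t := by
  have h1 : ‖(d : ℂ)‖ = 1 := le_antisymm (mem_closedBall_zero_iff.1 d.2) hd
  obtain ⟨t, ht⟩ := (AddCircle.homeomorphCircle (one_ne_zero (α := ℝ))).surjective
    ⟨d, mem_sphere_zero_iff_norm.2 h1⟩
  refine ⟨t, Subtype.ext ?_⟩
  rw [AddCircle.homeomorphCircle_apply] at ht
  simp only [circ, ht]

lemma circ_injective : Function.Injective circ := by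
  intro s t h
  have h1 : (AddCircle.toCircle s : ℂ) = AddCircle.toCircle t := congr_arg (fun d : Disc ↦ (d : ℂ)) h
  exact AddCircle.injective_toCircle one_ne_zero (Subtype.ext h1)

/-- The lifted solid torus. -/
lemma exists_lift : ∃ Φ : C(ℝ × Disc, E3), ∀ s d, pr (Φ (s, d)) = K.tube ((s : UnitAddCircle), d) := by
  have : ContractibleSpace Disc := Metric.contractibleSpace_closedBall zero_le_one
  obtain ⟨Φ, hΦ⟩ := exists_lift_contractible isCoveringMap_pr pr_surjective
    (⟨fun p : ℝ × Disc ↦ K.tube ((p.1 : UnitAddCircle), p.2), K.isEmbedding.continuous.comp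
      (((AddCircle.continuous_mk' (1 : ℝ)).comp continuous_fst).prodMk continuous_snd)⟩ :
      C(ℝ × Disc, T3))
  exact ⟨Φ, fun s d ↦ hΦ (s, d)⟩

/-- All the auxiliary data attached to a knot in the torus. -/
structure Data where
  Φ : C(ℝ × Disc, E3)
  hΦ : ∀ s d, pr (Φ (s, d)) = K.tube ((s : UnitAddCircle), d)
  w : Fin 3 → ℤ
  hw : ∀ s d, Φ (s + 1, d) = Φ (s, d) + iv w

instance : ContractibleSpace Disc := Metric.contractibleSpace_closedBall zero_le_one

lemma exists_data : Nonempty K.Data := by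
  obtain ⟨Φ, hΦ⟩ := K.exists_lift
  obtain ⟨w, hw⟩ := exists_of_pr_eq (x := Φ (1, 0)) (y := Φ (0, 0)) (by
    rw [hΦ, hΦ]
    congr 2
    simp)
  refine ⟨⟨Φ, hΦ, w, fun s d ↦ ?_⟩⟩
  have := lift_unique (A := ℝ × Disc) (F := fun p ↦ Φ (p.1 + 1, p.2)) (G := fun p ↦ Φ p + iv w)
    (by fun_prop) (by fun_prop) (fun p ↦ ?_) (0, 0) (by simp [hw])
  · exact congr_fun this (s, d)
  · rw [pr_add_iv, hΦ, hΦ, AddCircle.coe_add]
    congr 2
    have := coe_int 1
    simp only [Int.cast_one] at this
    rw [this, add_zero]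

variable {K}

namespace Data

variable (D : K.Data)

lemma Φ_add_int (s : ℝ) (n : ℤ) (d : Disc) : D.Φ (s + n, d) = D.Φ (s, d) + iv (n • D.w) := by
  induction n using Int.induction_on with
  | zero => simp
  | succ n ih =>
    have := D.hw (s + n) d
    push_cast at ih ⊢
    rw [← add_assoc, this, ih, add_smul, one_smul, map_add]
    abel
  | pred n ih =>
    have := D.hw (s + (-n - 1 : ℤ)) d
    push_cast at ih this ⊢
    rw [show s + (-(n : ℝ) - 1) + 1 = s + -n by ring, ih] at this
    rw [eq_sub_of_add_eq this.symm, sub_smul, one_smul, map_sub]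
    abel

lemma exists_eq_Φ (x : E3) (hx : pr x ∈ range K.tube) : ∃ s d v, x = D.Φ (s, d) + iv v := by
  obtain ⟨⟨s', d⟩, h⟩ := hx
  obtain ⟨s, rfl⟩ := unitAddCircle_surj s'
  obtain ⟨v, hv⟩ := exists_of_pr_eq (x := x) (y := D.Φ (s, d)) (by rw [D.hΦ, ← h])
  exact ⟨s, d, v, hv⟩

end Data

instance : CompactSpace Disc := isCompact_iff_compactSpace.1 (isCompact_closedBall 0 1)

lemma isClosedEmbedding_tube : IsClosedEmbedding K.tube :=
  K.isEmbedding.continuous.isClosedEmbedding K.isEmbedding.injective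

/-- The boundary torus as a map to the torus. -/
noncomputable def bd (K : TameKnot T3) (p : UnitAddCircle × UnitAddCircle) : T3 := K.tube (p.1, circ p.2)

lemma continuous_bd : Continuous K.bd :=
  K.isEmbedding.continuous.comp (continuous_fst.prodMk (continuous_circ.comp continuous_snd))

lemma bd_injective : Function.Injective K.bd := by
  rintro ⟨a, b⟩ ⟨a', b'⟩ h
  have := K.isEmbedding.injective h
  simp only [Prod.mk.injEq] at this
  rw [this.1, circ_injective this.2]

lemma isClosed_exterior : IsClosed K.exterior := isClosed_compl_iff.2 K.isOpen_image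

lemma mem_exterior_of_not_range {y : T3} (hy : y ∉ range K.tube) : y ∈ K.exterior := by
  rintro ⟨p, -, hp⟩
  exact hy ⟨p, hp⟩

lemma mem_range_of_not_exterior {y : T3} (hy : y ∉ K.exterior) : y ∈ range K.tube := by
  by_contra h
  exact hy (K.mem_exterior_of_not_range h)

lemma exists_bd {y : T3} (hy : y ∈ K.exterior) (hy' : y ∈ range K.tube) : ∃ p, y = K.bd p := by
  obtain ⟨⟨s, d⟩, rfl⟩ := hy'
  by_cases hd : ‖(d : ℂ)‖ < 1
  · exact absurd ⟨(s, d), hd, rfl⟩ hy
  · obtain ⟨t, rfl⟩ := exists_circ d (not_lt.1 hd)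
    exact ⟨(s, t), rfl⟩

/-- The circle bundle dual to the knot, trivialised on the universal cover. -/
lemma exists_setup (D : K.Data) : ∃ (S : Setup K.exterior) (G : C(ℝ × Disc, ℝ)),
    ∀ s t, S.f (D.Φ (s, circ t)) = t + ((G (s, circ t) : ℝ) : UnitAddCircle) := by
  classical
  obtain ⟨ang, hang, hang'⟩ := exists_ext_range
    (K.continuous_bd.isClosedEmbedding K.bd_injective).isEmbedding
    (⟨Prod.snd, continuous_snd⟩ : C(UnitAddCircle × UnitAddCircle, UnitAddCircle))
  set A : Set E3 := pr ⁻¹' K.exterior with hA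
  set B : Set E3 := pr ⁻¹' range K.tube with hB
  have hAc : IsClosed A := K.isClosed_exterior.preimage continuous_pr
  have hBc : IsClosed B := K.isClosedEmbedding_tube.isClosed_range.preimage continuous_pr
  have hAB : A ∪ B = univ := by
    ext x
    simp only [mem_union, mem_univ, iff_true]
    by_cases h : x ∈ A
    · exact Or.inl h
    · exact Or.inr (K.mem_range_of_not_exterior h)
  obtain ⟨f, g, hf, hg, hfg⟩ := exists_sub_eq (s := fun x ↦ ang (pr x)) hAc hBc hAB (by
    refine hang.comp continuous_pr.continuousOn (fun x hx ↦ ?_)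
    obtain ⟨p, hp⟩ := K.exists_bd hx.1 hx.2
    exact ⟨p, hp.symm⟩)
  have hAinv : ∀ v x, x ∈ A ↔ x + iv v ∈ A := fun v x ↦ by simp only [hA, mem_preimage, pr_add_iv]
  have hBinv : ∀ v x, x ∈ B ↔ x + iv v ∈ B := fun v x ↦ by simp only [hB, mem_preimage, pr_add_iv]
  let e : (Fin 3 → ℤ) → E3 → UnitAddCircle := fun v x ↦
    if x ∈ A then f (x + iv v) - f x else g (x + iv v) - g x
  have heA : ∀ v, ∀ x ∈ A, e v x = f (x + iv v) - f x := fun v x hx ↦ by simp only [e, hx, if_true]
  have heB : ∀ v, ∀ x ∈ B, e v x = g (x + iv v) - g x := by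
    intro v x hx
    by_cases hxA : x ∈ A
    · rw [heA v x hxA]
      have h1 := hfg x ⟨hxA, hx⟩
      have h2 := hfg (x + iv v) ⟨(hAinv v x).1 hxA, (hBinv v x).1 hx⟩
      simp only [pr_add_iv] at h1 h2
      have h3 : f x - g x = f (x + iv v) - g (x + iv v) := by rw [← h1, ← h2]
      have h4 : f (x + iv v) = f x - g x + g (x + iv v) := by rw [h3]; abel
      rw [h4]; abel
    · simp only [e, hxA, if_false]
  have htr : ∀ v : Fin 3 → ℤ, Continuous fun x : E3 ↦ x + iv v := fun v ↦ by fun_prop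
  have hec : ∀ v, Continuous (e v) := by
    intro v
    rw [← continuousOn_univ, ← hAB]
    refine ContinuousOn.union_of_isClosed ?_ ?_ hAc hBc
    · refine ContinuousOn.congr ?_ (heA v)
      exact (hf.comp (htr v).continuousOn (fun x hx ↦ (hAinv v x).1 hx)).sub hf
    · refine ContinuousOn.congr ?_ (heB v)
      exact (hg.comp (htr v).continuousOn (fun x hx ↦ (hBinv v x).1 hx)).sub hg
  have hcoc : ∀ v v' x, e (v + v') x = e v (x + iv v') + e v' x := by
    intro v v' x
    by_cases hx : x ∈ A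
    · rw [heA _ _ hx, heA _ _ hx, heA _ _ ((hAinv v' x).1 hx), map_add,
        show x + iv v' + iv v = x + (iv v + iv v') by abel]
      abel
    · have hx' : x ∈ B := K.mem_range_of_not_exterior hx
      rw [heB _ _ hx', heB _ _ hx', heB _ _ ((hBinv v' x).1 hx'), map_add,
        show x + iv v' + iv v = x + (iv v + iv v') by abel]
      abel
  have hΦB : ∀ p, D.Φ p ∈ B := fun p ↦ ⟨((p.1 : UnitAddCircle), p.2), (D.hΦ p.1 p.2).symm⟩
  obtain ⟨G, hG⟩ := exists_lift_contractible unitAddCircle_cov unitAddCircle_surj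
    (⟨fun p ↦ g (D.Φ p), hg.comp_continuous D.Φ.continuous hΦB⟩ : C(ℝ × Disc, UnitAddCircle))
  refine ⟨⟨f, hf, e, hec, hcoc, fun v x hx ↦ heA v x hx⟩, G, fun s t ↦ ?_⟩
  have h1 : pr (D.Φ (s, circ t)) = K.bd (s, t) := D.hΦ s (circ t)
  have h2 : D.Φ (s, circ t) ∈ A := by
    rw [hA, mem_preimage, h1]
    exact K.tube_circ_mem _ _
  have h3 := hfg (D.Φ (s, circ t)) ⟨h2, hΦB _⟩
  simp only [h1, hang', ContinuousMap.coe_mk] at h3
  have h4 : ((G (s, circ t) : ℝ) : UnitAddCircle) = g (D.Φ (s, circ t)) := hG (s, circ t)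
  rw [h4]
  exact eq_add_of_sub_eq h3.symm

/-- `S.f` on the lifted boundary torus. -/
lemma mem_Y {D : K.Data} {S : Setup K.exterior} {G : C(ℝ × Disc, ℝ)}
    (hG : ∀ s t, S.f (D.Φ (s, circ t)) = t + ((G (s, circ t) : ℝ) : UnitAddCircle)) (s r : ℝ) :
    pr (D.Φ (s, circ (r : UnitAddCircle))) ∈ K.exterior ∧
      ((r + G (s, circ (r : UnitAddCircle)) : ℝ) : UnitAddCircle) =
        S.f (D.Φ (s, circ (r : UnitAddCircle))) := by
  refine ⟨?_, ?_⟩
  · rw [D.hΦ]; exact K.tube_circ_mem _ _
  · rw [hG, AddCircle.coe_add]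

/-- Points of the total space over the boundary torus. -/
noncomputable def pt {D : K.Data} {S : Setup K.exterior} {G : C(ℝ × Disc, ℝ)}
    (hG : ∀ s t, S.f (D.Φ (s, circ t)) = t + ((G (s, circ t) : ℝ) : UnitAddCircle)) (s r : ℝ) : S.Y :=
  ⟨(D.Φ (s, circ (r : UnitAddCircle)), r + G (s, circ (r : UnitAddCircle))), mem_Y hG s r⟩

lemma continuous_pt {D : K.Data} {S : Setup K.exterior} {G : C(ℝ × Disc, ℝ)}
    (hG : ∀ s t, S.f (D.Φ (s, circ t)) = t + ((G (s, circ t) : ℝ) : UnitAddCircle))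
    {α : Type*} [TopologicalSpace α] {a b : α → ℝ} (ha : Continuous a) (hb : Continuous b) :
    Continuous (fun x ↦ pt hG (a x) (b x)) := by
  have h1 : Continuous fun x ↦ ((a x, circ (b x : UnitAddCircle)) : ℝ × Disc) :=
    ha.prodMk (continuous_circ.comp ((AddCircle.continuous_mk' (1 : ℝ)).comp hb))
  exact ((D.Φ.continuous.comp h1).prodMk (hb.add (G.continuous.comp h1))).subtype_mk _

lemma proj_pt {D : K.Data} {S : Setup K.exterior} {G : C(ℝ × Disc, ℝ)}
    (hG : ∀ s t, S.f (D.Φ (s, circ t)) = t + ((G (s, circ t) : ℝ) : UnitAddCircle)) (s r : ℝ) :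
    S.proj (pt hG s r) = K.boundary ((s : UnitAddCircle), (r : UnitAddCircle)) :=
  Subtype.ext (D.hΦ _ _)

/-- The base point upstairs. -/
noncomputable def e₀ {D : K.Data} {S : Setup K.exterior} {G : C(ℝ × Disc, ℝ)}
    (hG : ∀ s t, S.f (D.Φ (s, circ t)) = t + ((G (s, circ t) : ℝ) : UnitAddCircle)) :
    S.proj ⁻¹' {K.boundary (0, 0)} :=
  ⟨pt hG 0 0, by
    rw [mem_preimage, mem_singleton_iff, proj_pt]
    simp⟩

lemma monodromy_slope {D : K.Data} {S : Setup K.exterior} {G : C(ℝ × Disc, ℝ)}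
    (hG : ∀ s t, S.f (D.Φ (s, circ t)) = t + ((G (s, circ t) : ℝ) : UnitAddCircle)) (p q : ℤ) :
    (S.isQuotientCoveringMap.isCoveringMap.monodromy (K.slope p q) (e₀ hG)).1 = pt hG q p := by
  have h0 : S.proj (pt hG 0 0) = K.boundary (0, 0) := (e₀ hG).2
  let Γ : C(I, S.Y) := ⟨fun t ↦ pt hG (q * t) (p * t), continuous_pt hG (by fun_prop) (by fun_prop)⟩
  let γ : Path (K.boundary (0, 0)) (K.boundary (0, 0)) := (curve p q).map K.boundary.continuous
  have h1 : (S.isQuotientCoveringMap.isCoveringMap.monodromy (K.slope p q) (e₀ hG)).1 =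
      S.isQuotientCoveringMap.isCoveringMap.liftPath γ.toContinuousMap (e₀ hG).1
        (γ.source.trans (e₀ hG).2.symm) 1 := rfl
  have h2 : Γ = S.isQuotientCoveringMap.isCoveringMap.liftPath γ.toContinuousMap (e₀ hG).1
        (γ.source.trans (e₀ hG).2.symm) := by
    rw [IsCoveringMap.eq_liftPath_iff']
    refine ⟨funext fun t ↦ ?_, ?_⟩
    · exact proj_pt hG _ _
    · simp [Γ, e₀]
  rw [h1, ← h2]
  simp [Γ]

/-- A function on the torus that equals a linear form on the lifted solid torus. -/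
lemma exists_W (D : K.Data) {n : Fin 3 → ℤ} (hn : ∑ i, n i * D.w i = 0) :
    ∃ W : C(T3, ℝ), ∀ (s : ℝ) (d : Disc), W (K.tube ((s : UnitAddCircle), d)) = dot n (D.Φ (s, d)) := by
  have hq : IsQuotientMap (Prod.map ((↑) : ℝ → UnitAddCircle) (id : Disc → Disc)) :=
    (isOpenQuotientMap_coe.prodMap IsOpenQuotientMap.id).isQuotientMap
  let h : C(ℝ × Disc, ℝ) := ⟨fun p ↦ dot n (D.Φ p), by fun_prop⟩
  have hfac : Function.FactorsThrough h (Prod.map ((↑) : ℝ → UnitAddCircle) (id : Disc → Disc)) := by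
    rintro ⟨s, d⟩ ⟨s', d'⟩ hs
    simp only [Prod.map_apply, id_eq, Prod.mk.injEq] at hs
    obtain ⟨hs, rfl⟩ := hs
    obtain ⟨m, hm⟩ := coe_eq_zero (r := s - s') (by rw [AddCircle.coe_sub, hs, sub_self])
    have : s = s' + m := by linarith
    subst this
    simp only [h, ContinuousMap.coe_mk, D.Φ_add_int, dot_add, dot_iv]
    have : ∑ i, n i * (m • D.w) i = 0 := by
      simp only [Pi.smul_apply, smul_eq_mul]
      rw [show (∑ i, n i * (m * D.w i)) = m * ∑ i, n i * D.w i by
        rw [Finset.mul_sum]; exact Finset.sum_congr rfl fun i _ ↦ by ring, hn, mul_zero]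
    rw [this]; simp
  obtain ⟨W, hW⟩ := ContinuousMap.exists_extension' K.isClosedEmbedding_tube
    (hq.lift (f := ⟨_, hq.continuous⟩) h hfac)
  refine ⟨W, fun s d ↦ ?_⟩
  have h1 := congr_fun hW ((s : UnitAddCircle), d)
  simp only [Function.comp_apply] at h1
  rw [h1]
  have h2 := congr_arg (fun (F : C(ℝ × Disc, ℝ)) ↦ F (s, d))
    (hq.lift_comp (f := ⟨_, hq.continuous⟩) h hfac)
  exact h2

/-- The elements of the automorphism group whose lattice component is parallel to the knot are
central. -/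
lemma central (D : K.Data) (S : Setup K.exterior) (a b : S.Aut) {j : ℤ} (ha : a.v = j • D.w) :
    a * b = b * a := by
  obtain ⟨n, hn, h1, h2⟩ := exists_orthogonal D.w b.v
  obtain ⟨W, hW⟩ := K.exists_W D h1
  obtain ⟨C, hC⟩ := (isCompact_range (W.continuous.norm)).bddAbove
  have hav : ∑ i, n i * a.v i = 0 := by
    rw [ha]
    simp only [Pi.smul_apply, smul_eq_mul]
    rw [show (∑ i, n i * (j * D.w i)) = j * ∑ i, n i * D.w i by
      rw [Finset.mul_sum]; exact Finset.sum_congr rfl fun i _ ↦ by ring, h1, mul_zero]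
  have key := commuting (A := pr ⁻¹' K.exterior) S.f_cont S.e_cont S.coc
    (fun v x hx ↦ S.e_eq v x hx) hn (w := fun x ↦ W (pr x)) (W.continuous.comp continuous_pr)
    (fun x v ↦ by simp only [pr_add_iv]) (C := C)
    (fun x ↦ hC ⟨pr x, Real.norm_eq_abs _⟩)
    (by
      intro x hx
      by_contra hx'
      obtain ⟨s, d, v, rfl⟩ := D.exists_eq_Φ x (K.mem_range_of_not_exterior hx')
      rw [pr_add_iv, D.hΦ, hW, dot_add, dot_iv, add_sub_cancel_left] at hx
      have h3 : (2 * ∑ i, n i * v i : ℤ) = 1 := by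
        have : (2 : ℝ) * ((∑ i, n i * v i : ℤ) : ℝ) = 1 := by rw [hx]; norm_num
        exact_mod_cast this
      omega) hav h2 a.coe b.coe
  refine Setup.Aut.ext' (by simp [add_comm]) (fun x ↦ ?_)
  simp only [Setup.mul_θ]
  linarith [key x]

lemma zpow_v {S : Setup K.exterior} (a : S.Aut) (i : ℤ) : (a ^ i).v = i • a.v := by
  have := map_zpow (Setup.Aut.vHom S) a i
  exact congr_arg Multiplicative.toAdd this

/-- **Main theorem**: a knot in the three-torus which is not null-homotopic does not admit a drastic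
surgery. -/
theorem not_drastic (D : K.Data) (hw : D.w ≠ 0) : ¬ K.AdmitsDrasticSurgery := by
  rintro ⟨p, q, -, hfin⟩
  obtain ⟨S, G, hG⟩ := K.exists_setup D
  set ρ := S.isQuotientCoveringMap.fundamentalGroupToMulOpposite (e₀ hG) with hρ
  set N := Subgroup.normalClosure {K.slope p q} with hN
  have hslope : ∀ a b : ℤ, (ρ (K.slope a b)).unop.v = b • D.w ∧
      (ρ (K.slope a b)).unop.θ (D.Φ (0, circ 0)) = a + G (b, circ 0) - G (0, circ 0) := by
    intro a b
    have h1 := S.isQuotientCoveringMap.unop_fundamentalGroupToMulOpposite_smul (e := e₀ hG)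
      (γ := K.slope a b)
    rw [monodromy_slope hG a b] at h1
    have h2 := congr_arg Subtype.val h1
    rw [Setup.smul_val, ← hρ] at h2
    simp only [e₀, pt, Prod.mk.injEq, coe_int, AddCircle.coe_zero] at h2
    obtain ⟨h3, h4⟩ := h2
    have h5 := D.Φ_add_int 0 b (circ 0)
    rw [zero_add] at h5
    rw [h5] at h3
    refine ⟨iv_injective (add_left_cancel h3), ?_⟩
    linarith
  -- finite index gives powers
  have hpow : ∀ a b : ℤ, ∃ m : ℕ, 0 < m ∧ K.slope a b ^ m ∈ N := by
    intro a b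
    have hmem : K.slope a b ∈ K.peripheral := ⟨_, rfl⟩
    obtain ⟨m, hm, -, h⟩ := Subgroup.exists_pow_mem_of_index_ne_zero hfin.index_ne_zero
      (⟨K.slope a b, hmem⟩ : K.peripheral)
    exact ⟨m, hm, h⟩
  -- the image of the normal closure is cyclic
  have hcent : ∀ x : S.Autᵐᵒᵖ, ρ (K.slope p q) * x = x * ρ (K.slope p q) := by
    intro x
    apply MulOpposite.unop_injective
    rw [MulOpposite.unop_mul, MulOpposite.unop_mul]
    exact (central D S _ _ (hslope p q).1).symm
  have hnormal : (Subgroup.zpowers (ρ (K.slope p q))).Normal := by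
    refine ⟨fun x hx g ↦ ?_⟩
    obtain ⟨k, rfl⟩ := hx
    have : Commute (ρ (K.slope p q)) g := hcent g
    have h2 : g * ρ (K.slope p q) ^ k * g⁻¹ = ρ (K.slope p q) ^ k := by
      rw [← (this.zpow_left k).eq, mul_inv_cancel_right]
    simp only at h2 ⊢
    rw [h2]
    exact ⟨k, rfl⟩
  have hle : N ≤ (Subgroup.zpowers (ρ (K.slope p q))).comap ρ := by
    have : ((Subgroup.zpowers (ρ (K.slope p q))).comap ρ).Normal := hnormal.comap ρ
    refine Subgroup.normalClosure_le_normal ?_
    rw [singleton_subset_iff]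
    exact Subgroup.mem_zpowers _
  have hz : ∀ a b : ℤ, ∃ m : ℕ, 0 < m ∧ ∃ i : ℤ,
      (ρ (K.slope p q)).unop ^ i = (ρ (K.slope a b)).unop ^ m := by
    intro a b
    obtain ⟨m, hm, h⟩ := hpow a b
    obtain ⟨i, hi⟩ := hle h
    refine ⟨m, hm, i, ?_⟩
    simp only [map_pow] at hi
    have := congr_arg MulOpposite.unop hi
    simpa using this
  obtain ⟨k, hk⟩ := Function.ne_iff.1 hw
  simp only [Pi.zero_apply] at hk
  obtain ⟨m, hm, i, hi⟩ := hz 1 0
  obtain ⟨m', hm', j, hj⟩ := hz 0 1
  have hj' : j * q = m' := by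
    have h1 := congr_arg Setup.Aut.v hj
    rw [← zpow_natCast, zpow_v, zpow_v, (hslope p q).1, (hslope 0 1).1] at h1
    have h2 := congr_fun h1 k
    simp only [Pi.smul_apply, smul_eq_mul, one_mul] at h2
    exact mul_right_cancel₀ hk (by rw [mul_assoc]; exact h2)
  have hq : q ≠ 0 := by
    rintro rfl
    rw [mul_zero] at hj'
    exact hm'.ne' (by exact_mod_cast hj'.symm)
  have hi' : i = 0 := by
    have h1 := congr_arg Setup.Aut.v hi
    rw [← zpow_natCast, zpow_v, zpow_v, (hslope p q).1, (hslope 1 0).1] at h1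
    have h2 := congr_fun h1 k
    simp only [Pi.smul_apply, smul_eq_mul, zero_mul, mul_zero] at h2
    have h3 : i * q = 0 := by
      rcases mul_eq_zero.1 h2 with h | h
      · simp [h]
      · rcases mul_eq_zero.1 h with h | h
        · exact absurd h hq
        · exact absurd h hk
    exact (mul_eq_zero.1 h3).resolve_right hq
  rw [hi', zpow_zero] at hi
  -- the meridian has infinite order
  set μ := (ρ (K.slope 1 0)).unop with hμ
  have hμv : μ.v = 0 := by rw [(hslope 1 0).1, zero_smul]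
  have hμθ : ∀ n : ℕ, (μ ^ n).v = 0 ∧ (μ ^ n).θ (D.Φ (0, circ 0)) = n := by
    intro n
    induction n with
    | zero => simp
    | succ n ih =>
      rw [pow_succ, Setup.mul_v, Setup.mul_θ, hμv, ih.1, map_zero, add_zero, add_zero, ih.2]
      refine ⟨by simp, ?_⟩
      have := (hslope 1 0).2
      rw [← hμ] at this
      rw [this]
      push_cast
      ring
  have h1 := (hμθ m).2
  rw [← hi, Setup.one_θ] at h1
  exact hm.ne' (by exact_mod_cast h1.symm)

end TameKnot

end Pool.Agent.H872R2.Drastic
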