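import Pool.Agent.H872R2.Drastic.Main

/-!
The straight knot in the three-torus, and homotopy invariance of the winding vector.
-/

set_option autoImplicit false

namespace Pool.Agent.H872R2.Drastic

open Set Topology unitInterval

/-- The solid torus around the straight circle. -/
noncomputable def straightTube (p : UnitAddCircle × Disc) : T3 :=
  ![p.1, (((p.2 : ℂ).re / 4 : ℝ) : UnitAddCircle), (((p.2 : ℂ).im / 4 : ℝ) : UnitAddCircle)]

lemma continuous_straightTube : Continuous straightTube := by
  refine continuous_pi fun i ↦ ?_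
  fin_cases i
  · exact continuous_fst
  · exact (AddCircle.continuous_mk' (1 : ℝ)).comp
      ((Complex.continuous_re.comp (continuous_subtype_val.comp continuous_snd)).div_const 4)
  · exact (AddCircle.continuous_mk' (1 : ℝ)).comp
      ((Complex.continuous_im.comp (continuous_subtype_val.comp continuous_snd)).div_const 4)

lemma coe_inj_small {a b : ℝ} (ha : |a| ≤ 1 / 4) (hb : |b| ≤ 1 / 4)
    (h : (a : UnitAddCircle) = b) : a = b := by
  obtain ⟨n, hn⟩ := coe_eq_zero (r := a - b) (by rw [AddCircle.coe_sub, h, sub_self])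
  have h1 := abs_le.1 ha
  have h2 := abs_le.1 hb
  have h3 : n = 0 := by
    have : |(n : ℝ)| < 1 := by rw [← hn, abs_lt]; constructor <;> linarith
    have : |n| < 1 := by exact_mod_cast this
    exact Int.abs_lt_one_iff.1 this
  rw [h3] at hn
  simp only [Int.cast_zero] at hn
  linarith

lemma abs_re_le (d : Disc) : |(d : ℂ).re / 4| ≤ 1 / 4 := by
  have h1 : ‖(d : ℂ)‖ ≤ 1 := mem_closedBall_zero_iff.1 d.2
  have h2 := (Complex.abs_re_le_norm (d : ℂ)).trans h1
  rw [abs_div, abs_of_pos (by norm_num : (0 : ℝ) < 4)]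
  linarith

lemma abs_im_le (d : Disc) : |(d : ℂ).im / 4| ≤ 1 / 4 := by
  have h1 : ‖(d : ℂ)‖ ≤ 1 := mem_closedBall_zero_iff.1 d.2
  have h2 := (Complex.abs_im_le_norm (d : ℂ)).trans h1
  rw [abs_div, abs_of_pos (by norm_num : (0 : ℝ) < 4)]
  linarith

lemma straightTube_injective : Function.Injective straightTube := by
  rintro ⟨s, d⟩ ⟨s', d'⟩ h
  have h0 : s = s' := by simpa [straightTube] using congr_fun h 0
  have h1 := coe_inj_small (abs_re_le d) (abs_re_le d')
    (by simpa [straightTube] using congr_fun h 1)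
  have h2 := coe_inj_small (abs_im_le d) (abs_im_le d')
    (by simpa [straightTube] using congr_fun h 2)
  refine Prod.ext h0 (Subtype.ext (Complex.ext ?_ ?_))
  · simp only; linarith
  · simp only; linarith

lemma isOpen_straight : IsOpen (straightTube '' {p | ‖(p.2 : ℂ)‖ < 1}) := by
  have hopen : IsOpenMap pr := isOpenQuotientMap_pr.isOpenMap
  have h1 : IsOpen {x : E3 | (4 * x 1) ^ 2 + (4 * x 2) ^ 2 < 1} :=
    isOpen_lt (by fun_prop) continuous_const
  have h2 : straightTube '' {p | ‖(p.2 : ℂ)‖ < 1} = pr '' {x : E3 | (4 * x 1) ^ 2 + (4 * x 2) ^ 2 < 1} := by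
    ext y
    constructor
    · rintro ⟨⟨s, d⟩, hd, rfl⟩
      obtain ⟨r, rfl⟩ := unitAddCircle_surj s
      refine ⟨![r, (d : ℂ).re / 4, (d : ℂ).im / 4], ?_, ?_⟩
      · simp only [mem_ofPred_eq] at hd
        have h3 : ‖(d : ℂ)‖ ^ 2 < 1 := by
          rw [sq_lt_one_iff_abs_lt_one, abs_norm]; exact hd
        rw [← Complex.normSq_eq_norm_sq, Complex.normSq_apply] at h3
        simp only [mem_ofPred_eq, Matrix.cons_val_one, Matrix.cons_val]
        nlinarith
      · ext i
        fin_cases i <;> simp [straightTube]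
    · rintro ⟨x, hx, rfl⟩
      simp only [mem_ofPred_eq] at hx
      have h3 : ‖(⟨4 * x 1, 4 * x 2⟩ : ℂ)‖ < 1 := by
        have : ‖(⟨4 * x 1, 4 * x 2⟩ : ℂ)‖ ^ 2 < 1 := by
          rw [← Complex.normSq_eq_norm_sq, Complex.normSq_apply]
          nlinarith
        rwa [sq_lt_one_iff_abs_lt_one, abs_norm] at this
      refine ⟨((x 0 : UnitAddCircle), ⟨⟨4 * x 1, 4 * x 2⟩, mem_closedBall_zero_iff.2 h3.le⟩), h3, ?_⟩
      ext i
      fin_cases i <;> simp [straightTube]
  rw [h2]
  exact hopen _ h1

/-- The straight knot in direction `(1, 0, 0)` in the three-torus. -/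
noncomputable def straight : TameKnot T3 where
  tube := straightTube
  isEmbedding := (continuous_straightTube.isClosedEmbedding straightTube_injective).isEmbedding
  isOpen_image := isOpen_straight

lemma straight_core (s : UnitAddCircle) : straight.core s = ![s, 0, 0] := by
  simp [TameKnot.core, straight, straightTube]

/-- A knot homotopic to the straight knot has nonzero winding vector. -/
lemma w_ne_zero {K : TameKnot T3} (D : K.Data) (h : K.core.Homotopic straight.core) : D.w ≠ 0 := by
  obtain ⟨H⟩ := h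
  have hI : ContractibleSpace I := (convex_Icc (0 : ℝ) 1).contractibleSpace ⟨0, by simp⟩
  obtain ⟨F, hF⟩ := exists_lift_contractible isCoveringMap_pr pr_surjective
    (⟨fun p : I × ℝ ↦ H (p.1, (p.2 : UnitAddCircle)), H.continuous.comp
      (continuous_fst.prodMk ((AddCircle.continuous_mk' (1 : ℝ)).comp continuous_snd))⟩ :
      C(I × ℝ, T3))
  simp only [ContinuousMap.coe_mk] at hF
  have hone : ((1 : ℝ) : UnitAddCircle) = 0 := by simp
  obtain ⟨v, hv⟩ := exists_of_pr_eq (x := F (0, 1)) (y := F (0, 0)) (by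
    rw [hF, hF]; simp [hone])
  have hper : ∀ t s, F (t, s + 1) = F (t, s) + iv v := by
    have := lift_unique (A := I × ℝ) (F := fun p ↦ F (p.1, p.2 + 1)) (G := fun p ↦ F p + iv v)
      (by fun_prop) (by fun_prop) (fun p ↦ by
        rw [pr_add_iv, hF, hF, AddCircle.coe_add, hone, add_zero]) (0, 0) (by simpa using hv)
    exact fun t s ↦ congr_fun this (t, s)
  -- at time zero
  have h0 : v = D.w := by
    obtain ⟨c, hc⟩ := exists_of_pr_eq (x := D.Φ (0, ⟨0, by simp⟩)) (y := F (0, 0)) (by
      rw [hF, D.hΦ]; exact (H.apply_zero _).symm)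
    have := lift_unique (A := ℝ) (F := fun s ↦ D.Φ (s, ⟨0, by simp⟩)) (G := fun s ↦ F (0, s) + iv c)
      (by fun_prop) (by fun_prop) (fun s ↦ by
        rw [pr_add_iv, hF, D.hΦ]; exact (H.apply_zero _).symm) 0 hc
    have h1 := congr_fun this (0 + 1)
    simp only [D.hw, hper] at h1
    rw [hc] at h1
    apply iv_injective
    have h2 : F (0, 0) + iv c + iv D.w = F (0, 0) + iv c + iv v := by rw [h1]; abel
    exact (add_left_cancel h2).symm
  -- at time one
  have h1 : v = ![1, 0, 0] := by
    obtain ⟨c, hc⟩ := exists_of_pr_eq (x := ![0, 0, 0]) (y := F (1, 0)) (by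
      rw [hF]
      simp only [ContinuousMap.Homotopy.apply_one, straight_core]
      ext i
      fin_cases i <;> simp)
    have := lift_unique (A := ℝ) (F := fun s ↦ (![s, 0, 0] : E3)) (G := fun s ↦ F (1, s) + iv c)
      (by
        refine continuous_pi fun i ↦ ?_
        fin_cases i
        · exact continuous_id
        · exact continuous_const
        · exact continuous_const) (by fun_prop) (fun s ↦ by
        rw [pr_add_iv, hF]
        simp only [ContinuousMap.Homotopy.apply_one, straight_core]
        ext i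
        fin_cases i <;> simp) 0 hc
    have h1 := congr_fun this (0 + 1)
    simp only [hper] at h1
    have h2 : (![0 + 1, 0, 0] : E3) = ![0, 0, 0] + iv v := by
      rw [h1, hc]; abel
    ext i
    have h3 := congr_fun h2 i
    fin_cases i
    · simp at h3; exact_mod_cast h3.symm
    · simp at h3; exact_mod_cast h3.symm
    · simp at h3; exact_mod_cast h3.symm
  rw [← h0, h1]
  intro h
  simpa using congr_fun h 0

end Pool.Agent.H872R2.Drastic
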