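import Pool.Agent.H872R2.Drastic.MV

/-!
The universal covering `Fin 3 → ℝ` of the three-torus and a lemma on commuting factors of automorphy.
-/

set_option autoImplicit false

namespace Pool.Agent.H872R2.Drastic

open Set Topology unitInterval

/-- The three-torus. -/
abbrev T3 : Type := UnitAddTorus (Fin 3)

/-- Euclidean space. -/
abbrev E3 : Type := Fin 3 → ℝ

/-- Integer vectors as real vectors. -/
def iv : (Fin 3 → ℤ) →+ E3 where
  toFun v := fun i ↦ (v i : ℝ)
  map_zero' := by ext; simp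
  map_add' _ _ := by ext; simp

@[simp] lemma iv_apply (v : Fin 3 → ℤ) (i : Fin 3) : iv v i = (v i : ℝ) := rfl

lemma iv_injective : Function.Injective iv := by
  intro v v' h
  ext i
  have := congr_fun h i
  simpa using this

/-- The covering projection. -/
def pr : E3 →+ T3 where
  toFun x := fun i ↦ (x i : UnitAddCircle)
  map_zero' := by ext; simp
  map_add' _ _ := by ext; simp

@[simp] lemma pr_apply (x : E3) (i : Fin 3) : pr x i = (x i : UnitAddCircle) := rfl

lemma coe_int (n : ℤ) : ((n : ℝ) : UnitAddCircle) = 0 := by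
  rw [AddCircle.coe_eq_zero_iff]; exact ⟨n, by simp⟩

lemma coe_eq_zero {r : ℝ} (h : (r : UnitAddCircle) = 0) : ∃ n : ℤ, r = n := by
  rw [AddCircle.coe_eq_zero_iff] at h
  obtain ⟨n, hn⟩ := h
  exact ⟨n, by simpa using hn.symm⟩

@[simp] lemma pr_iv (v : Fin 3 → ℤ) : pr (iv v) = 0 := by
  ext i
  simp [coe_int]

lemma exists_of_pr_eq_zero {x : E3} (h : pr x = 0) : ∃ v, x = iv v := by
  have : ∀ i, ∃ n : ℤ, x i = n := fun i ↦ coe_eq_zero (congr_fun h i)
  choose v hv using this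
  exact ⟨v, by ext i; simp [hv i]⟩

lemma exists_of_pr_eq {x y : E3} (h : pr x = pr y) : ∃ v, x = y + iv v := by
  obtain ⟨v, hv⟩ := exists_of_pr_eq_zero (x := x - y) (by rw [map_sub, h, sub_self])
  exact ⟨v, by rw [← hv]; abel⟩

@[simp] lemma pr_add_iv (x : E3) (v : Fin 3 → ℤ) : pr (x + iv v) = pr x := by
  rw [map_add, pr_iv, add_zero]

lemma isOpenQuotientMap_coe : IsOpenQuotientMap ((↑) : ℝ → UnitAddCircle) :=
  ⟨unitAddCircle_surj, unitAddCircle_cov.continuous, unitAddCircle_cov.isOpenMap⟩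

lemma isOpenQuotientMap_pr : IsOpenQuotientMap pr :=
  IsOpenQuotientMap.piMap (fun _ ↦ isOpenQuotientMap_coe)

lemma continuous_pr : Continuous pr := isOpenQuotientMap_pr.continuous

lemma pr_surjective : Function.Surjective pr := isOpenQuotientMap_pr.surjective

lemma norm_iv_lt_one {v : Fin 3 → ℤ} (h : ‖iv v‖ < 1) : v = 0 := by
  ext i
  have h1 : ‖iv v i‖ < 1 := (norm_le_pi_norm _ i).trans_lt h
  rw [iv_apply, Real.norm_eq_abs] at h1
  have h2 : |v i| < 1 := by exact_mod_cast h1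
  simpa using Int.abs_lt_one_iff.1 h2

lemma isCoveringMap_pr : IsCoveringMap pr := by
  refine (isOpenQuotientMap_pr.isQuotientMap.isAddQuotientCoveringMap_of_isDiscrete_ker_addMonoidHom
    ⟨?_⟩).isCoveringMap
  apply discreteTopology_of_isOpen_singleton_zero
  rw [Metric.isOpen_singleton_iff]
  refine ⟨1, one_pos, fun y hy ↦ ?_⟩
  obtain ⟨v, hv⟩ := exists_of_pr_eq_zero (x := y.1) y.2
  rw [dist_zero_right] at hy
  have : ‖iv v‖ < 1 := by
    rw [← hv]; exact hy
  ext1
  rw [hv, norm_iv_lt_one this]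
  simp

/-- Two lifts of the same map from a connected space that agree at one point are equal. -/
lemma lift_unique {A : Type*} [TopologicalSpace A] [PreconnectedSpace A] {F G : A → E3}
    (hF : Continuous F) (hG : Continuous G) (h : ∀ a, pr (F a) = pr (G a)) (a : A)
    (ha : F a = G a) : F = G :=
  isCoveringMap_pr.eq_of_comp_eq hF hG (funext h) a ha

/-- A real valued function, integer valued on a preconnected set, is constant there. -/
lemma const_of_coe_eq_zero {X : Type*} [TopologicalSpace X] {S : Set X} (hS : IsPreconnected S)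
    {F : X → ℝ} (hF : ContinuousOn F S) (h : ∀ x ∈ S, ((F x : ℝ) : UnitAddCircle) = 0)
    {x y : X} (hx : x ∈ S) (hy : y ∈ S) : F x = F y := by
  refine unitAddCircle_cov.constOn_of_comp hS hF ?_ hx hy
  intro a ha b hb
  rw [h a ha, h b hb]

/-- Integer linear form. -/
def dot (n : Fin 3 → ℤ) (x : E3) : ℝ := ∑ i, (n i : ℝ) * x i

lemma dot_add (n : Fin 3 → ℤ) (x y : E3) : dot n (x + y) = dot n x + dot n y := by
  simp [dot, mul_add, Finset.sum_add_distrib]

lemma dot_smul (n : Fin 3 → ℤ) (t : ℝ) (x : E3) : dot n (t • x) = t * dot n x := by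
  simp only [dot, Finset.mul_sum, Pi.smul_apply, smul_eq_mul]
  exact Finset.sum_congr rfl fun i _ ↦ by ring

lemma dot_iv (n v : Fin 3 → ℤ) : dot n (iv v) = ((∑ i, n i * v i : ℤ) : ℝ) := by
  simp [dot]

@[fun_prop]
lemma continuous_dot (n : Fin 3 → ℤ) : Continuous (dot n) := by
  unfold dot; fun_prop

lemma exists_dot_ge {n : Fin 3 → ℤ} (hn : n ≠ 0) (C : ℝ) : ∃ x, C ≤ dot n x := by
  have hpos : 0 < dot n (iv n) := by
    rw [dot_iv]
    have : 0 < ∑ i, n i * n i := by
      obtain ⟨i, hi⟩ := Function.ne_iff.1 hn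
      refine Finset.sum_pos' (fun i _ ↦ mul_self_nonneg _) ⟨i, Finset.mem_univ i, ?_⟩
      exact mul_self_pos.2 hi
    exact_mod_cast this
  refine ⟨(C / dot n (iv n)) • iv n, ?_⟩
  rw [dot_smul, div_mul_cancel₀ _ hpos.ne']

lemma exists_dot_le {n : Fin 3 → ℤ} (hn : n ≠ 0) (C : ℝ) : ∃ x, dot n x ≤ C := by
  obtain ⟨x, hx⟩ := exists_dot_ge hn (-C)
  refine ⟨(-1 : ℝ) • x, ?_⟩
  rw [dot_smul]; linarith

/-- A nonzero integer vector orthogonal to two given ones. -/
lemma exists_orthogonal (v w : Fin 3 → ℤ) : ∃ n : Fin 3 → ℤ, n ≠ 0 ∧ ∑ i, n i * v i = 0 ∧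
    ∑ i, n i * w i = 0 := by
  by_cases hc : v 1 * w 2 - v 2 * w 1 = 0 ∧ v 2 * w 0 - v 0 * w 2 = 0 ∧ v 0 * w 1 - v 1 * w 0 = 0
  swap
  · refine ⟨![v 1 * w 2 - v 2 * w 1, v 2 * w 0 - v 0 * w 2, v 0 * w 1 - v 1 * w 0], ?_, ?_, ?_⟩
    · intro h
      apply hc
      exact ⟨by simpa using congr_fun h 0, by simpa using congr_fun h 1, by simpa using congr_fun h 2⟩
    · simp [Fin.sum_univ_three]; ring
    · simp [Fin.sum_univ_three]; ring
  · obtain ⟨h0, h1, h2⟩ := hc
    by_cases hv : v = 0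
    · by_cases hw : w = 0
      · exact ⟨fun _ ↦ 1, by intro h; simpa using congr_fun h 0, by simp [hv], by simp [hw]⟩
      · by_cases hw0 : w 0 = 0
        · exact ⟨![1, 0, 0], by intro h; simpa using congr_fun h 0, by simp [hv],
            by simp [Fin.sum_univ_three, hw0]⟩
        · refine ⟨![-w 1, w 0, 0], fun h ↦ hw0 ?_, by simp [hv], ?_⟩
          · simpa using congr_fun h 1
          · simp [Fin.sum_univ_three]; ring
    · by_cases hv0 : v 0 = 0
      · by_cases hv1 : v 1 = 0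
        · have hv2 : v 2 ≠ 0 := by
            intro h
            apply hv
            ext i
            fin_cases i <;> simp [hv0, hv1, h]
          refine ⟨![1, 0, 0], by intro h; simpa using congr_fun h 0,
            by simp [Fin.sum_univ_three, hv0], ?_⟩
          simp only [hv0, zero_mul, sub_zero] at h1
          simp only [Fin.sum_univ_three]
          have : w 0 = 0 := by
            rcases mul_eq_zero.1 h1 with h | h
            · exact absurd h hv2
            · exact h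
          simp [this]
        · -- v = (0, v1, v2), v1 ≠ 0
          refine ⟨![1, 0, 0], by intro h; simpa using congr_fun h 0,
            by simp [Fin.sum_univ_three, hv0], ?_⟩
          simp only [hv0, zero_mul, zero_sub, neg_eq_zero] at h2
          have : w 0 = 0 := by
            rcases mul_eq_zero.1 h2 with h | h
            · exact absurd h hv1
            · exact h
          simp [Fin.sum_univ_three, this]
      · refine ⟨![-v 1, v 0, 0], fun h ↦ hv0 ?_, ?_, ?_⟩
        · simpa using congr_fun h 1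
        · simp [Fin.sum_univ_three]; ring
        · simp [Fin.sum_univ_three]; linarith

/-- **Commuting lemma**: the factors of automorphy of a circle bundle on the torus, trivialised over
the level set `u = 1 / 2`, commute along the lattice vectors in the kernel of `n`. -/
theorem commuting {A : Set E3} {f : E3 → UnitAddCircle} (hf : ContinuousOn f A)
    {e : (Fin 3 → ℤ) → E3 → UnitAddCircle} (he : ∀ v, Continuous (e v))
    (hcoc : ∀ v v' x, e (v + v') x = e v (x + iv v') + e v' x)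
    (heA : ∀ v, ∀ x ∈ A, e v x = f (x + iv v) - f x)
    {n : Fin 3 → ℤ} (hn : n ≠ 0) {w : E3 → ℝ} (hw : Continuous w)
    (hwper : ∀ x v, w (x + iv v) = w x) {C : ℝ} (hC : ∀ x, |w x| ≤ C)
    (hu : ∀ x, dot n x - w x = 1 / 2 → x ∈ A)
    {v₁ v₂ : Fin 3 → ℤ} (hv₁ : ∑ i, n i * v₁ i = 0) (hv₂ : ∑ i, n i * v₂ i = 0)
    {θ₁ θ₂ : C(E3, ℝ)} (hθ₁ : ∀ x, ((θ₁ x : ℝ) : UnitAddCircle) = e v₁ x)
    (hθ₂ : ∀ x, ((θ₂ x : ℝ) : UnitAddCircle) = e v₂ x) (x : E3) :
    θ₁ (x + iv v₂) + θ₂ x = θ₂ (x + iv v₁) + θ₁ x := by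
  classical
  set u : E3 → ℝ := fun x ↦ dot n x - w x with hudef
  have hucont : Continuous u := by fun_prop
  have huinv : ∀ v : Fin 3 → ℤ, ∑ i, n i * v i = 0 → ∀ x, u (x + iv v) = u x := by
    intro v hv x
    simp only [hudef, dot_add, dot_iv, hv, hwper, Int.cast_zero, add_zero]
  set A' : Set E3 := {x | u x ≤ 1 / 2} with hA'
  set B' : Set E3 := {x | 1 / 2 ≤ u x} with hB'
  have hA'c : IsClosed A' := isClosed_le hucont continuous_const
  have hB'c : IsClosed B' := isClosed_le continuous_const hucont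
  have hAB' : A' ∪ B' = univ := by
    ext x; simp [hA', hB', le_total]
  have hsub : A' ∩ B' ⊆ A := fun x hx ↦ hu x (le_antisymm hx.1 hx.2)
  obtain ⟨h₁, h₂, hh₁, hh₂, hh⟩ := exists_sub_eq hA'c hB'c hAB' (hf.mono hsub)
  -- the modified factors of automorphy
  let e' : (Fin 3 → ℤ) → E3 → UnitAddCircle := fun v x ↦
    if x ∈ A' then e v x + h₁ x - h₁ (x + iv v) else h₂ x - h₂ (x + iv v)
  have hinvA : ∀ v : Fin 3 → ℤ, ∑ i, n i * v i = 0 → ∀ x, x ∈ A' → x + iv v ∈ A' := by
    intro v hv x hx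
    simpa only [hA', mem_ofPred_eq, huinv v hv] using hx
  have hinvB : ∀ v : Fin 3 → ℤ, ∑ i, n i * v i = 0 → ∀ x, x ∈ B' → x + iv v ∈ B' := by
    intro v hv x hx
    simpa only [hB', mem_ofPred_eq, huinv v hv] using hx
  have he'A : ∀ v, ∀ x ∈ A', e' v x = e v x + h₁ x - h₁ (x + iv v) := by
    intro v x hx; simp only [e', hx, if_true]
  have he'B : ∀ v : Fin 3 → ℤ, ∑ i, n i * v i = 0 → ∀ x ∈ B', e' v x = h₂ x - h₂ (x + iv v) := by
    intro v hv x hx
    by_cases hxA : x ∈ A'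
    · rw [he'A v x hxA, heA v x (hsub ⟨hxA, hx⟩), hh x ⟨hxA, hx⟩,
        hh (x + iv v) ⟨hinvA v hv x hxA, hinvB v hv x hx⟩]
      abel
    · simp only [e', hxA, if_false]
  have htr : ∀ v : Fin 3 → ℤ, Continuous fun x : E3 ↦ x + iv v := fun v ↦ by fun_prop
  have he'c : ∀ v : Fin 3 → ℤ, ∑ i, n i * v i = 0 → Continuous (e' v) := by
    intro v hv
    rw [← continuousOn_univ, ← hAB']
    refine ContinuousOn.union_of_isClosed ?_ ?_ hA'c hB'c
    · refine ContinuousOn.congr ?_ (he'A v)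
      exact ((he v).continuousOn.add hh₁).sub
        (hh₁.comp (htr v).continuousOn (fun x hx ↦ hinvA v hv x hx))
    · refine ContinuousOn.congr ?_ (he'B v hv)
      exact hh₂.sub (hh₂.comp (htr v).continuousOn (fun x hx ↦ hinvB v hv x hx))
  obtain ⟨F₁, hF₁⟩ := exists_lift_contractible unitAddCircle_cov unitAddCircle_surj
    (⟨e' v₁, he'c v₁ hv₁⟩ : C(E3, UnitAddCircle))
  obtain ⟨F₂, hF₂⟩ := exists_lift_contractible unitAddCircle_cov unitAddCircle_surj
    (⟨e' v₂, he'c v₂ hv₂⟩ : C(E3, UnitAddCircle))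
  simp only [ContinuousMap.coe_mk] at hF₁ hF₂
  -- the commutator of the modified factors
  set D : E3 → ℝ := fun x ↦ F₁ (x + iv v₂) - F₁ x - F₂ (x + iv v₁) + F₂ x with hD
  have hcomm : ∀ x, e v₁ (x + iv v₂) + e v₂ x = e v₂ (x + iv v₁) + e v₁ x := by
    intro x
    rw [← hcoc, ← hcoc, add_comm]
  have hDcoe : ∀ x, ((D x : ℝ) : UnitAddCircle) = 0 := by
    intro x
    simp only [hD, AddCircle.coe_sub, AddCircle.coe_add, hF₁, hF₂]
    by_cases hx : x ∈ A'
    · rw [he'A _ _ hx, he'A _ _ hx, he'A _ _ (hinvA _ hv₁ _ hx), he'A _ _ (hinvA _ hv₂ _ hx)]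
      have h1 := hcomm x
      have h2 : x + iv v₂ + iv v₁ = x + iv v₁ + iv v₂ := by abel
      rw [h2]
      have h3 : e v₁ (x + iv v₂) = e v₂ (x + iv v₁) + e v₁ x - e v₂ x := by
        rw [← h1]; abel
      rw [h3]
      abel
    · have hx' : x ∈ B' := by
        have : x ∈ A' ∪ B' := by rw [hAB']; trivial
        exact this.resolve_left hx
      rw [he'B _ hv₁ _ hx', he'B _ hv₂ _ hx', he'B _ hv₂ _ (hinvB _ hv₁ _ hx'),
        he'B _ hv₁ _ (hinvB _ hv₂ _ hx')]
      have h2 : x + iv v₂ + iv v₁ = x + iv v₁ + iv v₂ := by abel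
      rw [h2]
      abel
  have hDc : Continuous D := by fun_prop
  have hDconst : ∀ x y, D x = D y := fun x y ↦
    const_of_coe_eq_zero isPreconnected_univ hDc.continuousOn (fun x _ ↦ hDcoe x) (mem_univ x)
      (mem_univ y)
  -- on the positive side the commutator vanishes
  have hpos : ∃ x, D x = 0 := by
    set S : Set E3 := {x | C + 1 ≤ dot n x} with hS
    have hSc : IsClosed S := isClosed_le continuous_const (continuous_dot n)
    have hSconv : Convex ℝ S := by
      intro x hx y hy a b ha hb hab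
      simp only [hS, mem_ofPred_eq] at hx hy ⊢
      rw [dot_add, dot_smul, dot_smul]
      calc C + 1 = a * (C + 1) + b * (C + 1) := by rw [← add_mul, hab, one_mul]
        _ ≤ _ := add_le_add (mul_le_mul_of_nonneg_left hx ha) (mul_le_mul_of_nonneg_left hy hb)
    obtain ⟨x₀, hx₀⟩ := exists_dot_ge hn (C + 1)
    have : ContractibleSpace S := hSconv.contractibleSpace ⟨x₀, hx₀⟩
    have hSB : S ⊆ B' := by
      intro x hx
      have h1 := (abs_le.1 (hC x)).2
      simp only [hS, mem_ofPred_eq] at hx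
      simp only [hB', mem_ofPred_eq, hudef]
      linarith
    have hSinv : ∀ v : Fin 3 → ℤ, ∑ i, n i * v i = 0 → ∀ x, x ∈ S → x + iv v ∈ S := by
      intro v hv x hx
      simpa only [hS, mem_ofPred_eq, dot_add, dot_iv, hv, Int.cast_zero, add_zero] using hx
    obtain ⟨H, hH⟩ := exists_lift_on_closed hSc (hh₂.mono hSB)
    have hc : ∀ (v : Fin 3 → ℤ) (_ : ∑ i, n i * v i = 0) (F : C(E3, ℝ))
        (_ : ∀ x, ((F x : ℝ) : UnitAddCircle) = e' v x), ∀ x ∈ S, ∀ y ∈ S,
        F x - (H x - H (x + iv v)) = F y - (H y - H (y + iv v)) := by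
      intro v hv F hF x hx y hy
      refine const_of_coe_eq_zero (S := S) (F := fun x ↦ F x - (H x - H (x + iv v)))
        hSconv.isPreconnected (Continuous.continuousOn (by fun_prop)) ?_ hx hy
      intro z hz
      simp only [AddCircle.coe_sub]
      rw [hF, he'B v hv z (hSB hz), hH z hz, hH _ (hSinv v hv z hz)]
      abel
    refine ⟨x₀, ?_⟩
    have h1 := hc v₁ hv₁ F₁ hF₁ (x₀ + iv v₂) (hSinv _ hv₂ _ hx₀) x₀ hx₀
    have h2 := hc v₂ hv₂ F₂ hF₂ (x₀ + iv v₁) (hSinv _ hv₁ _ hx₀) x₀ hx₀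
    have h3 : x₀ + iv v₂ + iv v₁ = x₀ + iv v₁ + iv v₂ := by abel
    rw [h3] at h1
    simp only [hD]
    linarith
  have hneg : ∃ x, D x = θ₁ (x + iv v₂) - θ₁ x - θ₂ (x + iv v₁) + θ₂ x := by
    set S : Set E3 := {x | dot n x ≤ -C} with hS
    have hSc : IsClosed S := isClosed_le (continuous_dot n) continuous_const
    have hSconv : Convex ℝ S := by
      intro x hx y hy a b ha hb hab
      simp only [hS, mem_ofPred_eq] at hx hy ⊢
      rw [dot_add, dot_smul, dot_smul]
      calc _ ≤ a * (-C) + b * (-C) :=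
            add_le_add (mul_le_mul_of_nonneg_left hx ha) (mul_le_mul_of_nonneg_left hy hb)
        _ = -C := by rw [← add_mul, hab, one_mul]
    obtain ⟨x₀, hx₀⟩ := exists_dot_le hn (-C)
    have : ContractibleSpace S := hSconv.contractibleSpace ⟨x₀, hx₀⟩
    have hSA : S ⊆ A' := by
      intro x hx
      have h1 := (abs_le.1 (hC x)).1
      simp only [hS, mem_ofPred_eq] at hx
      simp only [hA', mem_ofPred_eq, hudef]
      linarith
    have hSinv : ∀ v : Fin 3 → ℤ, ∑ i, n i * v i = 0 → ∀ x, x ∈ S → x + iv v ∈ S := by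
      intro v hv x hx
      simpa only [hS, mem_ofPred_eq, dot_add, dot_iv, hv, Int.cast_zero, add_zero] using hx
    obtain ⟨H, hH⟩ := exists_lift_on_closed hSc (hh₁.mono hSA)
    have hc : ∀ (v : Fin 3 → ℤ) (_ : ∑ i, n i * v i = 0) (F θ : C(E3, ℝ))
        (_ : ∀ x, ((F x : ℝ) : UnitAddCircle) = e' v x)
        (_ : ∀ x, ((θ x : ℝ) : UnitAddCircle) = e v x), ∀ x ∈ S, ∀ y ∈ S,
        F x - (θ x + H x - H (x + iv v)) = F y - (θ y + H y - H (y + iv v)) := by
      intro v hv F θ hF hθ x hx y hy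
      refine const_of_coe_eq_zero (S := S) (F := fun x ↦ F x - (θ x + H x - H (x + iv v)))
        hSconv.isPreconnected (Continuous.continuousOn (by fun_prop)) ?_ hx hy
      intro z hz
      simp only [AddCircle.coe_sub, AddCircle.coe_add]
      rw [hF, he'A v z (hSA hz), hH z hz, hH _ (hSinv v hv z hz), hθ]
      abel
    refine ⟨x₀, ?_⟩
    have h1 := hc v₁ hv₁ F₁ θ₁ hF₁ hθ₁ (x₀ + iv v₂) (hSinv _ hv₂ _ hx₀) x₀ hx₀
    have h2 := hc v₂ hv₂ F₂ θ₂ hF₂ hθ₂ (x₀ + iv v₁) (hSinv _ hv₁ _ hx₀) x₀ hx₀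
    have h3 : x₀ + iv v₂ + iv v₁ = x₀ + iv v₁ + iv v₂ := by abel
    rw [h3] at h1
    simp only [hD]
    linarith
  obtain ⟨a, ha⟩ := hpos
  obtain ⟨b, hb⟩ := hneg
  set Dθ : E3 → ℝ := fun x ↦ θ₁ (x + iv v₂) - θ₁ x - θ₂ (x + iv v₁) + θ₂ x with hDθ
  have hDθc : Continuous Dθ := by fun_prop
  have hDθconst : Dθ x = Dθ b := by
    refine const_of_coe_eq_zero isPreconnected_univ hDθc.continuousOn (fun y _ ↦ ?_) (mem_univ x)
      (mem_univ b)
    simp only [hDθ, AddCircle.coe_sub, AddCircle.coe_add, hθ₁, hθ₂]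
    have h1 := hcomm y
    have h3 : e v₁ (y + iv v₂) = e v₂ (y + iv v₁) + e v₁ y - e v₂ y := by
      rw [← h1]; abel
    rw [h3]
    abel
  have : Dθ x = 0 := by
    rw [hDθconst]
    simp only [hDθ]
    rw [← hb, hDconst b a, ha]
  simp only [hDθ] at this
  linarith

end Pool.Agent.H872R2.Drastic
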